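import Pool.Agent.PFJ.Defs
import Pool.Agent.PFB.StmtsB

/-!
# PFJ squad (MP_e54c4c_gt, product faces, several blocks): SECTION G, the periodic simplex

Input (`Dat`): convex cocompact `Γ`, a closed invariant family `P` of full subspaces, strict convexity
of the factors of the boxes, limits of boxes, and discreteness of the subspaces.
Output (row PZK): every box subspace carries a box simplex preserved by `ℤ^k ≤ Γ`.

`x ≤ y` means `y - x ∈ closure C`.  `PFB.FceStmt`, `PFB.FpcStmt`, `PFB.BipStmt`, `PFB.FixStmt` are the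
proved rows of the one block version (they do not mention boxes).
The fibre `{i, j}` of `β` over `a` (`i ≠ j`, `β i = β j = a`) is called a pair, `L a` a pair factor;
`i` is single if `β j = β i` only for `j = i`.
-/

set_option autoImplicit false

open Matrix Filter Topology

namespace Pool.Agent.PFJ

open Pool.Agent.PFS

/-- limits of boxes (output of row BLM) -/
def LimB {n : ℕ} (C : Set (V n)) (Γ : Subgroup (GL (Fin n) ℝ)) (K : ℕ) : Prop :=
  ∀ (L : ℕ → Fin K → Submodule ℝ (V n)) (x : ℕ → Fin K → V n) (β : Fin K → Fin K) (p : V n),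
    (∀ m, Box C Γ (L m) (x m) β) → p ∈ C → Tendsto (fun m => ∑ i, x m i) atTop (𝓝 p) →
    ∃ (φ : ℕ → ℕ) (L' : Fin K → Submodule ℝ (V n)) (w : Fin K → V n), StrictMono φ ∧
      Box C Γ L' w β ∧ (∀ i, Tendsto (fun m => x (φ m) i) atTop (𝓝 (w i))) ∧
      (∀ a, LimS (fun m => L (φ m) a) (L' a)) ∧
      LimS (fun m => ⨆ a, L (φ m) a) (⨆ a, L' a) ∧
      ∀ m, Module.finrank ℝ ↥(⨆ a, L (φ m) a) = Module.finrank ℝ ↥(⨆ a, L' a)

/-- discreteness of the family of box subspaces (output of row DSB) -/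
def DscS {n : ℕ} (C : Set (V n)) (Γ : Subgroup (GL (Fin n) ℝ)) (K : ℕ)
    (P : Submodule ℝ (V n) → Prop) : Prop :=
  ∀ (L : Fin K → Submodule ℝ (V n)) (w : Fin K → V n) (β : Fin K → Fin K)
    (Lm : ℕ → Fin K → Submodule ℝ (V n)) (x : ℕ → Fin K → V n) (βm : ℕ → Fin K → Fin K),
    Box C Γ L w β → P (⨆ a, L a) → (∀ m, Box C Γ (Lm m) (x m) (βm m)) →
    (∀ m, P (⨆ a, Lm m a)) → LimS (fun m => ⨆ a, Lm m a) (⨆ a, L a) →
    (∀ m, Module.finrank ℝ ↥(⨆ a, Lm m a) = Module.finrank ℝ ↥(⨆ a, L a)) →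
    ∀ᶠ m in atTop, (⨆ a, Lm m a) = ⨆ a, L a

/-- the input of section G -/
structure Dat {n : ℕ} (C : Set (V n)) (Γ : Subgroup (GL (Fin n) ℝ)) (K : ℕ)
    (P : Submodule ℝ (V n) → Prop) : Prop extends CC C Γ where
  three : 3 ≤ K
  fam : FamS C Γ P
  strict : ∀ L w β, Box (K := K) C Γ L w β → P (⨆ a, L a) → Strict C L
  lim : LimB C Γ K
  dsc : DscS C Γ K P

/-- **Row BOA** (elementary facts on boxes).

Proof.  (1) `IsPES` by ELM; the other fields are clear (`c i ≠ 0`).  (2) ELM (2);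
`x a ∈ img g (L a)` means `x a = act g (y a)`; `∑ x a = act g (∑ y a)`, `CC.act_cl_iff`; `bot`, `one`
clear; `two`: `finrank` of the image under an injective map (`CC.act_injective`).
(3) `Submodule.map_iSup`.  (4) injective.  (5) `Submodule.mem_iSup_iff_exists_finsupp` or
`Submodule.mem_iSup_iff_exists_dfinsupp`, or directly: the set of such sums is a submodule containing
all `L a` and contained in the supremum.  (6) `∑ y = 0 ∈ closure C` and `∑ (-y) = 0`, so by `comp`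
`y a` and `- y a` are in `closure C`: `y a = 0` by salient. -/
def BoaStmt : Prop :=
  ∀ (n : ℕ) (C : Set (V n)) (Γ : Subgroup (GL (Fin n) ℝ)), CC C Γ → ∀ (K : ℕ)
    (L : Fin K → Submodule ℝ (V n)) (w : Fin K → V n) (β : Fin K → Fin K), Box C Γ L w β →
    (∀ c : Fin K → ℝ, (∀ i, 0 < c i) → Box C Γ L (fun i => c i • w i) β) ∧
    (∀ g ∈ Γ, ∀ s : ℝ, 0 < s → Box C Γ (fun a => img g (L a)) (fun i => s • act g (w i)) β) ∧
    (∀ g : GL (Fin n) ℝ, (⨆ a, img g (L a)) = img g (⨆ a, L a)) ∧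
    (∀ (g : GL (Fin n) ℝ) (U : Submodule ℝ (V n)),
      Module.finrank ℝ ↥(img g U) = Module.finrank ℝ ↥U) ∧
    (∀ x, x ∈ (⨆ a, L a) ↔ ∃ y : Fin K → V n, (∀ a, y a ∈ L a) ∧ ∑ a, y a = x) ∧
    (∀ y : Fin K → V n, (∀ a, y a ∈ L a) → ∑ a, y a = 0 → ∀ a, y a = 0)

/-- **Row FCU** (the factors are faces).  `K ≥ 3`, the subspace is full, `a = β i0`, `u` = the sum of
the vertices of the fibre over `a`.

Proof.  `u ∈ closure C`, `u ∉ C` by `PES.bd` (the fibre has at most two elements by `three`, so some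
index is omitted), `u ∈ L a`, `u ≠ 0` (LIN or: `∑ w ∈ C`, `comp`).
Unit: let `z ∈ L a`.  `PCone.absorb`: `M ∑ w - z ∈ C`; its component in `L a` is `M u - z`
(`∑ w = ∑_b u_b`), so `M u - z ∈ closure C` by `comp`.
`Face C u ⊆ L a`: `y ∈ Face C u`; `Full` gives `y ∈ W`, `y = ∑ y_b` (BOA (5)), `u - ε y ∈ closure C`
has the components `- ε y_b`, `b ≠ a`, and `y ∈ closure C` (`y ≥ ε u`) has the components `y_b`; so
`y_b = 0` for `b ≠ a` (comp, salient).  So `Face C u` is the set of units of `L a`: a face element is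
`≥ ε u`; a unit `y` has `u ≤ M y` and `y ≤ M' u`.  Span: `z ∈ L a`: `z + M u ≥ u` is a unit for `M`
large (`M u + z ≥ u` and `≤ M'' u`), so `z` is in the span.  Closure: if `z ∈ closure C ∩ L a` then
`z + δ u ∈ Face C u`, `δ → 0`; conversely `Face C u ⊆ closure C ∩ L a`, closed. -/
def FcuStmt : Prop :=
  ∀ (n : ℕ) (C : Set (V n)) (Γ : Subgroup (GL (Fin n) ℝ)), CC C Γ → ∀ (K : ℕ), 3 ≤ K →
    ∀ (L : Fin K → Submodule ℝ (V n)) (w : Fin K → V n) (β : Fin K → Fin K), Box C Γ L w β →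
    Full C (⨆ a, L a) → ∀ i0 : Fin K, ∀ u : V n,
    u = ∑ i ∈ Finset.univ.filter (fun i => β i = β i0), w i →
    u ∈ closure C ∧ u ∉ C ∧ u ≠ 0 ∧
    (∀ y, y ∈ Face C u ↔ Unt C (L (β i0)) y) ∧
    Submodule.span ℝ (Face C u) = L (β i0) ∧
    (∀ y, y ∈ closure (Face C u) ↔ (y ∈ closure C ∧ y ∈ L (β i0)))

/-- **Row CHB** (other boundary rays of the factors give boxes with the same factors).

Proof.  For a pair `i ≠ j`, `β i = β j = a`: `w'_i + w'_j` is a unit of `L a` (`Strict`), so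
`≥ ε (w_i + w_j)`.  For a single `i`: `w'_i = c w_i` (field `one`), `c > 0` (`w'_i ≠ 0`, salient).
So `∑ w' ≥ ε ∑ w ∈ C`.  CRT: suppose `∑_{j≠i} w'_j ∈ C`; for `z ∈ L (β i)` absorb gives
`M ∑_{j≠i} w'_j - z ∈ C`; its component in `L (β i)` is `M w'_j - z` if `{i, j}` is a pair, so `w'_j`
is a unit, contradiction; if `i` is single the component is `-z`, and `z = w_i` gives
`-w_i ∈ closure C`, contradiction.  `w'_i ∈ LamC`: with `u` = the sum of the vertices `w` of the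
fibre of `i` one has `w'_i ≤ M u` (FCU), `u ∈ Hull`, `u ∉ C`, `u ≠ 0`, so `u ∈ LamC` (CLO), FLM.
The other fields of `Box` do not involve the vertices, except `mem` (hypothesis) and `one`
(`w'_i = c w_i`, `c ≠ 0`). -/
def ChbStmt : Prop :=
  ∀ (n : ℕ) (C : Set (V n)) (Γ : Subgroup (GL (Fin n) ℝ)), CC C Γ → ∀ (K : ℕ), 3 ≤ K →
    ∀ (L : Fin K → Submodule ℝ (V n)) (w : Fin K → V n) (β : Fin K → Fin K), Box C Γ L w β →
    Full C (⨆ a, L a) → Strict C L → ∀ w' : Fin K → V n,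
    (∀ i, w' i ∈ L (β i) ∧ w' i ∈ closure C ∧ w' i ≠ 0) →
    (∀ i j, i ≠ j → β i = β j → Ind2 (w' i) (w' j) ∧ ¬ Unt C (L (β i)) (w' i)) →
    Box C Γ L w' β

/-- **Row NUN** (vertices of pairs are not units).

Proof.  If `w_i` is a unit of `L (β i)` then `w_j ≤ M w_i`, so `∑ w ≤ (1 + M) ∑_{l ≠ j} w_l`, and
`∑_{l≠j} w_l ∈ C`, contradicting `bd`.  Independence from LIN. -/
def NunStmt : Prop :=
  ∀ (n : ℕ) (C : Set (V n)) (Γ : Subgroup (GL (Fin n) ℝ)), CC C Γ → ∀ (K : ℕ)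
    (L : Fin K → Submodule ℝ (V n)) (w : Fin K → V n) (β : Fin K → Fin K), Box C Γ L w β →
    (∀ i j, i ≠ j → β i = β j → ¬ Unt C (L (β i)) (w i)) ∧
    (∀ i j, i ≠ j → Ind2 (w i) (w j)) ∧ (∀ i, w i ∈ closure C ∧ w i ≠ 0)

/-- **Row DEC** (uniqueness of the factors).

Proof.  Let `P_a`, `P'_b` be the components with respect to the two decompositions of
`W = ⨆ L = ⨆ L'` (BOA (5), (6)); they map `closure C ∩ W` into `closure C` (`comp`).
Step 1.  Let `x ∈ L a ∩ closure C` and `y = P'_b x`.  `y` and `x - y` are in `closure C`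
(sum of the other components).  `y ∈ L a`: decompose `y = ∑ y_c`, `y_c ∈ L c ∩ closure C`;
`x - y ∈ closure C` has the component `-y_c` for `c ≠ a`; so `y_c = 0`.
As `L a` is spanned by `L a ∩ closure C` (it contains a unit: FCU, or every `z ∈ L a` is
`(z + M u) - M u`), `P'_b` maps `L a` into itself for every `b`; on `L a` these are linear
projections with sum the identity (`P'_b P'_b = P'_b`).
Step 2.  If `L a ≠ ⊥`, exactly one `P'_b` is nonzero on `L a`.  If `L a` is a line (single vertex,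
field `one`): clear.  If `a` is a pair factor, `finrank (L a) ≥ 3`; suppose two are nonzero, `b` one
of them: `Q = P'_b` and `1 - Q` are nonzero projections of `L a`, one of their ranges has dimension
`≥ 2`, say that of `Q` (the other case is symmetric); it is spanned by
`Q (L a ∩ closure C) ⊆ closure C`, so it contains two independent vectors `x, y` of `closure C`;
`x + y` is a unit of `L a` (Strict), and `(1 - Q)(x + y) = 0`.  For `z ∈ L a`:
`M (x + y) ∓ z ∈ closure C`, apply `1 - Q` (positive by Step 1): `∓ (1 - Q) z ∈ closure C`, so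
`(1 - Q) z = 0`.  Contradiction.
So `L a ≤ L' b`.  Symmetrically `L' b ≤ L c` (`L' b ≠ ⊥`), so `L a ≤ L c`, hence `c = a`
(BOA (6), `L a ≠ ⊥`) and `L a = L' b`. -/
def DecStmt : Prop :=
  ∀ (n : ℕ) (C : Set (V n)) (Γ : Subgroup (GL (Fin n) ℝ)), CC C Γ → ∀ (K : ℕ), 3 ≤ K →
    ∀ (L : Fin K → Submodule ℝ (V n)) (w : Fin K → V n) (β : Fin K → Fin K)
    (L' : Fin K → Submodule ℝ (V n)) (w' : Fin K → V n) (β' : Fin K → Fin K),
    Box C Γ L w β → Box C Γ L' w' β' → Full C (⨆ a, L a) → Strict C L → Strict C L' →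
    (⨆ a, L a) = (⨆ a, L' a) → ∀ a, L a ≠ ⊥ → ∃ b, L a = L' b

/-- **Row EVB** (eventually the same factors).

Proof.  Let `a` be in the range of `β` (otherwise both factors are `⊥` by `bot`), so `L' a ≠ ⊥` and
`L_m a ≠ ⊥` (they contain a vertex, nonzero).  DEC (`⨆ L_m = ⨆ L'` is full): `L_m a = L' b_m`.  If
`b_m = b ≠ a` for infinitely many `m`, let `x ∈ L' a`; LimS (first part) gives `y_m ∈ L_m a`,
`y_m → x`; along these `m` `y_m ∈ L' b`, closed (finite dimension), so `x ∈ L' b`; so `L' a ≤ L' b`, and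
`x - x = 0` with BOA (6) gives `x = 0`: `L' a = ⊥`, contradiction.  Finitely many `a`, `b`. -/
def EvbStmt : Prop :=
  ∀ (n : ℕ) (C : Set (V n)) (Γ : Subgroup (GL (Fin n) ℝ)), CC C Γ → ∀ (K : ℕ), 3 ≤ K →
    ∀ (L : ℕ → Fin K → Submodule ℝ (V n)) (x : ℕ → Fin K → V n)
    (L' : Fin K → Submodule ℝ (V n)) (w : Fin K → V n) (β : Fin K → Fin K),
    (∀ m, Box C Γ (L m) (x m) β) → (∀ m, Strict C (L m)) → Box C Γ L' w β → Strict C L' →
    Full C (⨆ a, L' a) → (∀ m, (⨆ a, L m a) = ⨆ a, L' a) →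
    (∀ a, LimS (fun m => L m a) (L' a)) → ∀ᶠ m in atTop, ∀ a, L m a = L' a

/-- **Row ZB2** (zooming at a box).  `c_m > 0` coefficient vectors.  On a subsequence the zoomed
simplices converge to a box simplex and the factors are mapped exactly onto the factors of the
limit box.

Proof.  `p_m = ∑ c_{m,i} w_i ∈ C ∩ Hull` (ELM).  ZOM: `G_m p_{φ m} → p ∈ C`, `G_m = s_m act g_m`.
`(img g_m L, G_m (c w), β)` are boxes (BOA (1), (2)), the sum tends to `p`; `Dat.lim`: subsequence,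
limit box `(L', W, β)`, `LimS` of the factors and of the suprema, equal `finrank`.
`P (⨆ img g_m L) ` by BOA (3) and `FamS.act`; `P (⨆ L')` by `FamS.closed` (`∑ W ∈ C` is a point of
`⨆ L'` in `C`).  `Dat.dsc`: eventually `⨆ img g_m L = ⨆ L'`; pass to the tail; EVB (`Dat.strict`,
`FamS.full`); pass to the tail again. -/
def Zb2Stmt : Prop :=
  ∀ (n : ℕ) (C : Set (V n)) (Γ : Subgroup (GL (Fin n) ℝ)) (K : ℕ)
    (P : Submodule ℝ (V n) → Prop), Dat C Γ K P →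
    ∀ (L : Fin K → Submodule ℝ (V n)) (w : Fin K → V n) (β : Fin K → Fin K), Box C Γ L w β →
    P (⨆ a, L a) → ∀ c : ℕ → Fin K → ℝ, (∀ m i, 0 < c m i) →
    ∃ (φ : ℕ → ℕ) (g : ℕ → GL (Fin n) ℝ) (s : ℕ → ℝ) (L' : Fin K → Submodule ℝ (V n))
      (W : Fin K → V n), StrictMono φ ∧ (∀ m, g m ∈ Γ) ∧ (∀ m, 0 < s m) ∧ Box C Γ L' W β ∧
      P (⨆ a, L' a) ∧
      (∀ i, Tendsto (fun m => s m • act (g m) (c (φ m) i • w i)) atTop (𝓝 (W i))) ∧
      ∀ m a, img (g m) (L a) = L' a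

/-- **Row EI2** (eigenrays in a strictly convex factor).

Proof.  As the landed row PFB G_EIG (Helper15_PFB/EIG.lean), with units of `U` in the place of `F`.
(1) `e ∈ U ∩ closure C`, `e ≠ 0`, `σ e = κ e`; `κ > 0` (`σ` preserves `closure C`, injective,
salient).  If `e` is independent of `x0` and of `x1`: `e + x1`, `e + x0` are units of `U`, so
`x0 ≤ M (e + x1)`, `x1 ≤ M (e + x0)`.  `σ^{-k}`: `x0 ≤ M ((λ/κ)^k e + (λ/μ)^k x1)`; if `κ > λ` the
right side tends to `0`, contradiction, so `κ ≤ λ`; `σ^k`: `x1 ≤ M ((κ/μ)^k e + (λ/μ)^k x0) → 0`,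
contradiction.  So `e` is dependent with `x0` or `x1`, `e = c x0` or `e = c x1`, `c > 0` by salient.
(2) if `x1` is a unit: `x0 ≤ M x1`, `σ^{-k}`: `x0 ≤ M (λ/μ)^k x1 → 0`, contradiction.  If `x0` is a
unit: `x1 ≤ M x0`, `σ^k`: `x1 ≤ M (λ/μ)^k x0 → 0`, contradiction. -/
def Ei2Stmt : Prop :=
  ∀ (n : ℕ) (C : Set (V n)) (Γ : Subgroup (GL (Fin n) ℝ)), CC C Γ → ∀ U : Submodule ℝ (V n),
    (∀ x ∈ U, ∀ y ∈ U, x ∈ closure C → y ∈ closure C → Ind2 x y → Unt C U (x + y)) →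
    ∀ σ ∈ Γ, ∀ (x0 x1 : V n) (lam mu : ℝ), x0 ∈ U → x1 ∈ U → x0 ∈ closure C → x1 ∈ closure C →
    Ind2 x0 x1 → 0 < lam → lam < mu → act σ x0 = lam • x0 → act σ x1 = mu • x1 →
    (∀ e ∈ U, e ∈ closure C → e ≠ 0 → ∀ κ : ℝ, act σ e = κ • e →
      (∃ c : ℝ, 0 < c ∧ e = c • x0) ∨ (∃ c : ℝ, 0 < c ∧ e = c • x1)) ∧
    ¬ Unt C U x0 ∧ ¬ Unt C U x1

/-- **Row BPB** (biproximal elements on one strictly convex factor).  `U0 = span F`,
`F = Face C (x0 + x1)` = the units of `U0`, `U0`, `U1` strictly convex, `x0, x1 ∈ U0` and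
`X0, X1 ∈ U1` independent nonunits in `closure C`, `G_m = s_m act g_m` maps `U0` onto `U1`,
`e_m → ∞`, `G_m (e_m x0) → X0`, `G_m (e_m⁻¹ x1) → X1`.  Then for all large `m0` and all large `m`
(depending on `m0`) the element `g_{m0}⁻¹ g_m` has two independent eigenvectors in
`U0 ∩ closure C` with different positive eigenvalues.

Proof.  For large `m0` the vectors `G_{m0} x0` (`e_{m0} G_{m0} x0` is close to `X0`) and `X1` are
independent (`X0, X1` are; openness).  Fix such an `m0`, `H_m = G_{m0}⁻¹ G_m`, `f = x0 + x1`.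
`H_m` maps `U0` onto `U0` and `F` onto `F` (units of `U0`).
Suppose the claim fails for infinitely many `m`; restrict to these `m`.
(b) `e_m⁻¹ H_m f = G_{m0}⁻¹ (e_m⁻² G_m (e_m x0) + G_m (e_m⁻¹ x1)) → b := G_{m0}⁻¹ X1 ∈ U0 ∩ closure C`,
`b` is not a unit of `U0` (`X1` is not a unit of `U1`), so `b ∉ F`.
(a) `u_m = G_m (e_m x0) + G_m (e_m⁻¹ x1) → X0 + X1 =: X`, a unit of `U1` (strict); `u_m ∈ U1`.  There is
a constant `B` with `-B ‖v‖ X ≤ v ≤ B ‖v‖ X` for `v ∈ U1` (unit, finite dimension: basis), so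
`(1/2) X ≤ u_m ≤ 2 X` for large `m`; `G_{m0} f` is a unit of `U1`, so it is comparable to `X`, hence
`M⁻¹ u_m ≤ G_{m0} f ≤ M u_m` for large `m`.  Apply `e_m⁻¹ G_m⁻¹`:
`M⁻¹ z_m ≤ e_m⁻¹ H_m⁻¹ f ≤ M z_m`, `z_m = x0 + e_m⁻² x1 → x0`.  Bounded (`PCone.normal`), on a
subsequence it converges to `a ∈ U0`, `M⁻¹ x0 ≤ a ≤ M x0`.  `a` is a multiple of `x0`: otherwise
`a + x0` is a unit of `U0` (strict) and `≤ (M + 1) x0`, so `x0` is a unit, contradiction.  `a = c x0`,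
`c > 0`.
`a, b` are independent because `G_{m0} x0` and `X1` are.  `a ∉ F`, `a, b ∈ closure F`
(FCE (5): `closure F = closure C ∩ U0`).
Coordinates (FPC): `ι : V d → V n` with range `U0`, `F0 = ι⁻¹ F` is a `PCone` and `PFB.Strict`
(linear independence of `![y1, y2]` passes to `Ind2`), `H_m` induces linear equivalences of `V d`
preserving `F0`, the convergences hold in `V d`.  `PFB.BipStmt` with `r_m = s_m = e_m⁻¹` gives an `m`
of the restricted sequence for which `H_m` has independent eigenvectors in `closure F` with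
eigenvalues `0 < λ < μ`; `act (g_{m0}⁻¹ g_m) = (s_{m0}/s_m) H_m`: contradiction. -/
def BpbStmt : Prop :=
  ∀ (n : ℕ) (C : Set (V n)) (Γ : Subgroup (GL (Fin n) ℝ)), CC C Γ →
    ∀ (U0 U1 : Submodule ℝ (V n)) (x0 x1 X0 X1 : V n) (g : ℕ → GL (Fin n) ℝ) (s e : ℕ → ℝ),
    (∀ x ∈ U0, ∀ y ∈ U0, x ∈ closure C → y ∈ closure C → Ind2 x y → Unt C U0 (x + y)) →
    (∀ x ∈ U1, ∀ y ∈ U1, x ∈ closure C → y ∈ closure C → Ind2 x y → Unt C U1 (x + y)) →
    Submodule.span ℝ (Face C (x0 + x1)) = U0 → (∀ y, y ∈ Face C (x0 + x1) ↔ Unt C U0 y) →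
    x0 ∈ U0 → x1 ∈ U0 → x0 ∈ closure C → x1 ∈ closure C → Ind2 x0 x1 →
    ¬ Unt C U0 x0 → ¬ Unt C U0 x1 →
    X0 ∈ U1 → X1 ∈ U1 → X0 ∈ closure C → X1 ∈ closure C → Ind2 X0 X1 →
    ¬ Unt C U1 X0 → ¬ Unt C U1 X1 →
    (∀ m, g m ∈ Γ) → (∀ m, 0 < s m) → (∀ m, 0 < e m) → Tendsto e atTop atTop →
    (∀ m, img (g m) U0 = U1) →
    Tendsto (fun m => s m • act (g m) (e m • x0)) atTop (𝓝 X0) →
    Tendsto (fun m => s m • act (g m) ((e m)⁻¹ • x1)) atTop (𝓝 X1) →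
    ∀ᶠ m0 in atTop, ∀ᶠ m in atTop, ∃ (y0 y1 : V n) (lam mu : ℝ), y0 ∈ U0 ∧ y1 ∈ U0 ∧
      y0 ∈ closure C ∧ y1 ∈ closure C ∧ Ind2 y0 y1 ∧ 0 < lam ∧ lam < mu ∧
      act ((g m0)⁻¹ * g m) y0 = lam • y0 ∧ act ((g m0)⁻¹ * g m) y1 = mu • y1

/-- **Row BP2** (a simultaneously biproximal element).  Every box subspace of the family has a box
simplex `w'` with the same factors on which some `σ ∈ Γ` acts diagonally, with different eigenvalues
on the two vertices of every pair.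

Proof.  ZB2 with `c_{m,i} = e^m` if `i` is the smaller, `e^{-m}` if `i` is the larger index of a pair,
`1` if `i` is single.  For every pair `i < j`, `a = β i`: BPB with `U0 = L a`, `U1 = L' a`, `x0 = w_i`,
`x1 = w_j`, `X0 = W_i`, `X1 = W_j`, `e_m = e^{φ m}` (FCU with `u = w_i + w_j`: the fibre is `{i, j}` by
`three`; `Dat.strict`; NUN for `w` and for `W`; ZB2 (last item)).  So for all large `m0` and `m` the
claim of BPB holds for all pairs at once; fix such `m0 < m` and `σ = g_{m0}⁻¹ g_m`.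
`w'_i = y0`, `w'_j = y1` for the pairs, `w'_i = w_i` for single `i`: `σ w_i ∈ img σ (L (β i)) = L (β i)`
(both `g_m` and `g_{m0}` map it onto `L' (β i)`), so `σ w_i = ν w_i` by field `one`, `ν > 0` (`σ`
preserves `closure C`, injective).  `y0, y1` are not units (EI2 (2)).  CHB: `w'` is a box simplex. -/
def Bp2Stmt : Prop :=
  ∀ (n : ℕ) (C : Set (V n)) (Γ : Subgroup (GL (Fin n) ℝ)) (K : ℕ)
    (P : Submodule ℝ (V n) → Prop), Dat C Γ K P →
    ∀ (L : Fin K → Submodule ℝ (V n)) (w : Fin K → V n) (β : Fin K → Fin K), Box C Γ L w β →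
    P (⨆ a, L a) →
    ∃ (w' : Fin K → V n) (σ : GL (Fin n) ℝ) (nu : Fin K → ℝ), Box C Γ L w' β ∧ σ ∈ Γ ∧
      (∀ i, 0 < nu i ∧ act σ (w' i) = nu i • w' i) ∧
      ∀ i j, i ≠ j → β i = β j → nu i ≠ nu j

/-- **Row SE2** (Selberg's centraliser trick).  Let `σ` be as in BP2 (for the box simplex `w`).  For
every `ℓ ≠ 0`, `∑ ℓ = 0`, there is `γ ∈ Γ` acting diagonally on `w` with `∑ ℓ_i χ_i ≠ 0`.

Proof.  (Landed one block version: Helper28_PFB/Sel.lean.)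
ZB2 with `c_{m,i} = exp(m ℓ_i)`: `G_m = s_m act g_m`, `y_{m,i} = G_m (exp(φ(m) ℓ_i) w_i) → W_i`,
`img g_m (L a) = L' a`.  `PFB.FixStmt`: `g_m σ g_m⁻¹` takes finitely many values, so it is constant on
a subsequence.  For `m0 < m` in this subsequence `γ = g_{m0}⁻¹ g_m` commutes with `σ`, and
`img γ (L a) = L a`.  Single `i`: `γ w_i ∈ L (β i)`, so `γ w_i = c w_i` (field `one`), `c > 0`.  Pair
`i ≠ j`: say `ν_i < ν_j`; EI2 (1) for `U = L (β i)`, `x0 = w_i`, `x1 = w_j`, `e = γ w_i`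
(`σ e = γ σ w_i = ν_i e`): `e = c w_i` or `e = c w_j`, the latter would give `ν_i = ν_j`; the same for
`γ w_j`.  So `γ w_i = exp(χ_i) w_i` for all `i`, and
`exp(χ_i) = (s_{m0}/s_m) exp(-(φ m - φ m0) ℓ_i) ‖y_{m,i}‖ / ‖y_{m0,i}‖`, hence (`∑ ℓ = 0`)
`∑ ℓ_i χ_i = -(φ m - φ m0) ∑ ℓ_i² + ∑ ℓ_i (log ‖y_{m,i}‖ - log ‖y_{m0,i}‖)`; the last sum is bounded
(`y_{m,i} → W_i ≠ 0`), so this is `≠ 0` for `m` large. -/
def Se2Stmt : Prop :=
  ∀ (n : ℕ) (C : Set (V n)) (Γ : Subgroup (GL (Fin n) ℝ)) (K : ℕ)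
    (P : Submodule ℝ (V n) → Prop), Dat C Γ K P →
    ∀ (L : Fin K → Submodule ℝ (V n)) (w : Fin K → V n) (β : Fin K → Fin K), Box C Γ L w β →
    P (⨆ a, L a) → ∀ (σ : GL (Fin n) ℝ) (nu : Fin K → ℝ), σ ∈ Γ →
    (∀ i, 0 < nu i ∧ act σ (w i) = nu i • w i) →
    (∀ i j, i ≠ j → β i = β j → nu i ≠ nu j) →
    ∀ ℓ : Fin K → ℝ, ℓ ≠ 0 → ∑ i, ℓ i = 0 →
      ∃ γ ∈ Γ, ∃ χ : Fin K → ℝ, (∀ i, act γ (w i) = Real.exp (χ i) • w i) ∧
        ∑ i, ℓ i * χ i ≠ 0

/-- **Row PZK** (assembly of section G).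

Proof.  BP2 gives `w', σ, ν`; SE2 for `w'`; CHI (PFS) with
`X = {χ : ∃ γ ∈ Γ, ∀ i, act γ (w' i) = exp(χ_i) w' i}` gives `k` linearly independent characters; ABE
(PFS) gives the subgroup. -/
def PzkStmt : Prop :=
  ∀ (n : ℕ) (C : Set (V n)) (Γ : Subgroup (GL (Fin n) ℝ)) (k : ℕ)
    (P : Submodule ℝ (V n) → Prop), Dat C Γ (k + 1) P →
    ∀ (L : Fin (k + 1) → Submodule ℝ (V n)) (w : Fin (k + 1) → V n) (β : Fin (k + 1) → Fin (k + 1)),
    Box C Γ L w β → P (⨆ a, L a) →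
    ∃ w' : Fin (k + 1) → V n, Box C Γ L w' β ∧
      ∃ A : Subgroup (GL (Fin n) ℝ), A ≤ Γ ∧ Nonempty (↥A ≃* Multiplicative (Fin k → ℤ)) ∧
        ∀ a ∈ A, ∀ y ∈ PosCone w', act a y ∈ PosCone w'

end Pool.Agent.PFJ
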