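import Pool.Agent.PFS.StmtsH
import Pool.Agent.Helper37_PFS.Main

/-!
# PFB squad (MP_e54c4c_gt): definitions for the product (join) theorem

A box is a subspace `W = ⨆ a, L a` on which the closed cone is the direct sum of the cones
`closure C ∩ L a`, together with an adapted top simplex `w`: every vertex `w i` lies in one factor
`L (β i)`; a factor with one vertex is the line spanned by it, a factor with two vertices has
dimension at least three, no factor has three vertices.
-/

set_option autoImplicit false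

open Matrix Filter Topology

namespace Pool.Agent.PFJ

open Pool.Agent.PFS

variable {n : ℕ}

/-- image of a subspace under a matrix group element -/
noncomputable def img (g : GL (Fin n) ℝ) (L : Submodule ℝ (V n)) : Submodule ℝ (V n) :=
  L.map (Matrix.mulVecLin (g : Matrix (Fin n) (Fin n) ℝ))

theorem mem_img {g : GL (Fin n) ℝ} {L : Submodule ℝ (V n)} {x : V n} :
    x ∈ img g L ↔ ∃ y ∈ L, act g y = x := Iff.rfl

/-- `y` is an order unit of the cone `closure C ∩ L` -/
def Unt (C : Set (V n)) (L : Submodule ℝ (V n)) (y : V n) : Prop :=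
  y ∈ L ∧ y ∈ closure C ∧ ∀ z ∈ L, ∃ M : ℝ, 0 < M ∧ M • y - z ∈ closure C

/-- `e` spans an extreme ray of the closed cone -/
def Ext (C : Set (V n)) (e : V n) : Prop :=
  ∀ y ∈ closure C, ∀ M : ℝ, M • e - y ∈ closure C → ∃ c : ℝ, y = c • e

/-- the subspace contains the open faces of all boundary points of the cone it contains -/
def Full (C : Set (V n)) (W : Submodule ℝ (V n)) : Prop :=
  ∀ q ∈ W, q ∈ closure C → q ∉ C → ∀ y ∈ Face C q, y ∈ W

/-- linear independence of two vectors -/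
def Ind2 (x y : V n) : Prop := ∀ a b : ℝ, a • x + b • y = 0 → a = 0 ∧ b = 0

/-- convergence of subspaces (Kuratowski) -/
def LimS (L : ℕ → Submodule ℝ (V n)) (L' : Submodule ℝ (V n)) : Prop :=
  (∀ x ∈ L', ∃ y : ℕ → V n, (∀ m, y m ∈ L m) ∧ Tendsto y atTop (𝓝 x)) ∧
  (∀ (φ : ℕ → ℕ) (y : ℕ → V n) (x : V n), StrictMono φ → (∀ m, y m ∈ L (φ m)) →
    Tendsto y atTop (𝓝 x) → x ∈ L')

/-- `p` is at Hilbert distance at most `log M` from the subspace `W` -/
def NearS (C : Set (V n)) (M : ℝ) (W : Submodule ℝ (V n)) (p : V n) : Prop :=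
  ∃ q ∈ W, q - p ∈ closure C ∧ M • p - q ∈ closure C

/-- a box with an adapted simplex -/
structure Box {K : ℕ} (C : Set (V n)) (Γ : Subgroup (GL (Fin n) ℝ))
    (L : Fin K → Submodule ℝ (V n)) (w : Fin K → V n) (β : Fin K → Fin K) : Prop where
  pes : IsPES C Γ w
  mem : ∀ i, w i ∈ L (β i)
  comp : ∀ x : Fin K → V n, (∀ a, x a ∈ L a) → ∑ a, x a ∈ closure C → ∀ a, x a ∈ closure C
  bot : ∀ a, (∀ i, β i ≠ a) → L a = ⊥
  one : ∀ i, (∀ j, β j = β i → j = i) → ∀ x ∈ L (β i), ∃ c : ℝ, x = c • w i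
  two : ∀ i j, i ≠ j → β i = β j → 3 ≤ Module.finrank ℝ (L (β i))
  three : ∀ i j l, β i = β j → β j = β l → i = j ∨ j = l ∨ i = l

/-- every factor is strictly convex -/
def Strict {K : ℕ} (C : Set (V n)) (L : Fin K → Submodule ℝ (V n)) : Prop :=
  ∀ a, ∀ x ∈ L a, ∀ y ∈ L a, x ∈ closure C → y ∈ closure C → Ind2 x y → Unt C (L a) (x + y)

/-- closed `Γ`-invariant families of full subspaces -/
structure FamS (C : Set (V n)) (Γ : Subgroup (GL (Fin n) ℝ)) (P : Submodule ℝ (V n) → Prop) :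
    Prop where
  full : ∀ W, P W → Full C W
  act : ∀ W, P W → ∀ g ∈ Γ, P (img g W)
  closed : ∀ (W : ℕ → Submodule ℝ (V n)) (W' : Submodule ℝ (V n)), (∀ m, P (W m)) → LimS W W' →
    (∀ m, Module.finrank ℝ (W m) = Module.finrank ℝ W') → (∃ x ∈ W', x ∈ C) → P W'

/-- two different boxes of the family, of the same dimension, the second one near the first one
in the region `v i < v j` -/
structure Pair {K : ℕ} (C : Set (V n)) (Γ : Subgroup (GL (Fin n) ℝ))
    (P : Submodule ℝ (V n) → Prop)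
    (L : Fin K → Submodule ℝ (V n)) (w : Fin K → V n) (β : Fin K → Fin K)
    (L' : Fin K → Submodule ℝ (V n)) (w' : Fin K → V n) (β' : Fin K → Fin K) (i : Fin K) :
    Prop where
  box : Box C Γ L w β
  box' : Box C Γ L' w' β'
  fam : P (⨆ a, L a)
  fam' : P (⨆ a, L' a)
  dim : Module.finrank ℝ ↥(⨆ a, L' a) = Module.finrank ℝ ↥(⨆ a, L a)
  ne : (⨆ a, L a) ≠ ⨆ a, L' a
  near : ∀ v : Fin K → ℤ, (∀ j, j ≠ i → v i < v j) → NearS C 2 (⨆ a, L' a) (pt w v)

end Pool.Agent.PFJ
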