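import Pool.Agent.PFJ.Defs

/-!
# PFJ squad (MP_e54c4c_gt): statements of all rows (discreteness half), complete proofs in words

THEOREM.  Let `Γ` act convex cocompactly on the domain `Ω` of the cone `C`, let `K = k + 1 ≥ 3` be
the maximal number of vertices of a properly embedded simplex with vertices in the limit set.  Let
`W₀` be a subspace such that `Ω ∩ P(W₀)` is a join of points and of strictly convex domains, with a
top simplex `v` adapted to the join (one vertex for every point, two vertices for every strictly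
convex domain), and suppose that every limit `W` of `Γ`-translates of `W₀` which meets `C` is FULL
(contains the open faces of `Ω` which it meets in the boundary).  Then there is a top simplex in
`W₀`, adapted to the same join, satisfying the conclusion of Q1: it is maximal and preserved by a
subgroup of `Γ` isomorphic to `ℤ^k`.

Conventions.  `x ≤ y` means `y - x ∈ closure C`.  `G = s • act g` scaled group element.
All rows of the PFS squad are PROVED THEOREMS and may be cited (import is already there):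
`Pool.Agent.PFS.H60.zom : ZomStmt`, `H60.elm : ElmStmt`, `H60.lin : LinStmt`, `H60.crt : CrtStmt`,
`H60.fun_ : FunStmt`, `H37.cloF : CloStmt`, `H37.flmF : FlmStmt`, `H37.limF : LimStmt`,
`H37.lpsF : LpsStmt`, `H97.gap : GapStmt`, `CC.hul : HulFacts C Γ`, `PCone.normal`,
`PCone.absorb`, `PCone.squeeze`, ... (look into `Pool/Agent/PFS/{Defs,Hul,Stmts}.lean`).
Hypotheses of the form `XStmt` in the column `uses` are rows of THIS file.
-/

set_option autoImplicit false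

open Matrix Filter Topology

namespace Pool.Agent.PFJ

open Pool.Agent.PFS

/-! ## A. Subspaces -/

/-- **Row LSC** (compactness of subspaces).

Proof.  The dimensions are `≤ n`, so they are constant `= d` on a subsequence (pigeonhole,
`Filter.Frequently`).  Choose `e^m : Fin d → V n` in `L m`, orthonormal for the dot product (transport
`L m` to `EuclideanSpace ℝ (Fin n)`, `stdOrthonormalBasis`), spanning `L m`.  Entries are bounded by
`1`; on a subsequence `e^m → e`, `e_i ⬝ e_j = δ_ij`, so `e` is independent; `L' = span (range e)`,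
`finrank L' = d`.  First half: `x = ∑ c_i e_i` is the limit of `∑ c_i e^m_i`.  Second half:
`y_m ∈ L (φ m)`, `y_m → x`: `y_m = ∑ (y_m ⬝ e_i) e_i → ∑ (x ⬝ e_i) e_i ∈ L'` (the frames along the
further subsequence converge to the same `e`). -/
def LscStmt : Prop :=
  ∀ (n : ℕ) (L : ℕ → Submodule ℝ (V n)), ∃ (φ : ℕ → ℕ) (L' : Submodule ℝ (V n)), StrictMono φ ∧
    LimS (fun m => L (φ m)) L' ∧
    ∀ m, Module.finrank ℝ (L (φ m)) = Module.finrank ℝ L'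

/-- **Row LSF** (elementary facts on `LimS`).

Proof.  (1) compose; strictly monotone maps compose.  (2) `act g` is continuous and invertible with
continuous inverse `act g⁻¹`: apply `act g⁻¹` to the sequences.  (3) the first half for `L'` gives
`y_m ∈ L m`, `y_m → x`; the second half for `L''` (`φ = id`) gives `x ∈ L''`. (4) constant
sequences; a subspace of a finite-dimensional space is closed. (5) if `LimS` and all
`L m ≤ N m`, `LimS N N'`, then `L' ≤ N'`. -/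
def LsfStmt : Prop :=
  ∀ n : ℕ,
    (∀ (L : ℕ → Submodule ℝ (V n)) (L' : Submodule ℝ (V n)) (φ : ℕ → ℕ), LimS L L' →
      StrictMono φ → LimS (fun m => L (φ m)) L') ∧
    (∀ (L : ℕ → Submodule ℝ (V n)) (L' : Submodule ℝ (V n)) (g : GL (Fin n) ℝ), LimS L L' →
      LimS (fun m => img g (L m)) (img g L')) ∧
    (∀ (L : ℕ → Submodule ℝ (V n)) (L' L'' : Submodule ℝ (V n)), LimS L L' → LimS L L'' →
      L' = L'') ∧
    (∀ L : Submodule ℝ (V n), LimS (fun _ => L) L) ∧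
    (∀ (L N : ℕ → Submodule ℝ (V n)) (L' N' : Submodule ℝ (V n)), LimS L L' → LimS N N' →
      (∀ m, L m ≤ N m) → L' ≤ N')

/-- **Row IMG** (elementary facts on `img`).

Proof.  `img g = Submodule.map` of an injective linear map with inverse `mulVecLin g⁻¹`
(`CC.act_inv_act`, `CC.act_act_inv`, `CC.act_mul`, `CC.act_one`); `Submodule.map_iSup`;
`LinearEquiv.finrank_map_eq` or `LinearMap.finrank_map_eq_of_injective`-like lemma. -/
def ImgStmt : Prop :=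
  ∀ n : ℕ,
    (∀ (g : GL (Fin n) ℝ) (L : Submodule ℝ (V n)),
      Module.finrank ℝ (img g L) = Module.finrank ℝ L) ∧
    (∀ (g : GL (Fin n) ℝ) (L : Submodule ℝ (V n)) (x : V n), act g x ∈ img g L ↔ x ∈ L) ∧
    (∀ (g h : GL (Fin n) ℝ) (L : Submodule ℝ (V n)), img g (img h L) = img (g * h) L) ∧
    (∀ (L : Submodule ℝ (V n)), img 1 L = L) ∧
    (∀ (K : ℕ) (g : GL (Fin n) ℝ) (L : Fin K → Submodule ℝ (V n)),
      img g (⨆ a, L a) = ⨆ a, img g (L a)) ∧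
    (∀ (g : GL (Fin n) ℝ) (L N : Submodule ℝ (V n)), img g L = img g N → L = N)

/-! ## B. Boxes -/

/-- **Row BFA** (basic facts on boxes).

Proof.  (1) `∑ x_a = 0 ∈ closure C`, so `x_a ∈ closure C`; the same for `-x`; salient.
(2) `→`: `p = ∑ x_a ∈ C`; `x_a ∈ closure C` by `comp`.  Let `z ∈ L a`; `PCone.absorb`: `M > 0`,
`M p - z ∈ C`; `comp` for the family `b ↦ M x_b - (z if b = a)` gives `M x_a - z ∈ closure C`.
`←`: let `y_a = ∑_{β i = a} w_i ∈ L a`; `∑_a y_a = ∑_i w_i ∈ C` (`Finset.sum_fiberwise`, `pes.pos`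
with `c = 1`).  For every `a` there is `M_a > 0` with `M_a x_a - y_a ∈ closure C`; let `M` be the
maximum (`K ≥ 1`, since for `K = 0` `∑ w = 0 ∉ C`): `M ∑ x_a - ∑ y_a ∈ closure C`, so
`M ∑ x_a ∈ C`.
(3) (2) `→` for the family `y`.  (4) `Submodule.mem_iSup_iff_exists_finsupp` or
`Submodule.mem_iSup_of_...`/induction (`Submodule.iSup_induction`).  (5) from (1).
(6) a nonzero element of `L a` exists only if `a = β j` for some `j` (`bot`). -/
def BfaStmt : Prop :=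
  ∀ (n : ℕ) (C : Set (V n)) (Γ : Subgroup (GL (Fin n) ℝ)), PCone C →
    ∀ (K : ℕ) (L : Fin K → Submodule ℝ (V n)) (w : Fin K → V n) (β : Fin K → Fin K),
      Box C Γ L w β →
      (∀ x : Fin K → V n, (∀ a, x a ∈ L a) → ∑ a, x a = 0 → ∀ a, x a = 0) ∧
      (∀ x : Fin K → V n, (∀ a, x a ∈ L a) → (∑ a, x a ∈ C ↔ ∀ a, Unt C (L a) (x a))) ∧
      (∀ a, Unt C (L a) (∑ i ∈ Finset.univ.filter (fun i => β i = a), w i)) ∧
      (∀ x ∈ ⨆ a, L a, ∃ y : Fin K → V n, (∀ a, y a ∈ L a) ∧ ∑ a, y a = x) ∧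
      (∀ a b, a ≠ b → ∀ x, x ∈ L a → x ∈ L b → x = 0) ∧
      (∀ a, ∀ x ∈ L a, x ≠ 0 → ∃ j, β j = a)

/-- **Row UNF** (units).

Proof.  (1), (2), (3): immediate from the definition (`M z' - ..`).
(4) `z ∈ L`: choose `M > 0` with `M y - z ∈ closure C`; for `ε = 1/(2M)`:
`y - ε z = (1/2) y + (1/(2M)) (M y - z)`, and `(1/2) y` is a unit, so by (2) `y - ε z` is a unit.
(5) `M₁ y - z, M₂ y + z ∈ closure C`, `M₁, M₂ > 0`, `t = 1/(2 M₂)`:
`y + t z - (1/2) y = t (M₂ y + z)` and, with `ε = min (1/2) (1/(1 + t M₁))`,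
`y - ε (y + t z) = (1 - ε (1 + t M₁)) y + ε t (M₁ y - z)`.
(6) if `y` is a unit of `L` and `Ext C y`, then every `z ∈ L` is a multiple of `y`: by (5)
`y + t z ∈ Face C y`, so `y + t z ∈ closure C` and `M y - (y + t z) ∈ closure C` for some `M`. -/
def UnfStmt : Prop :=
  ∀ (n : ℕ) (C : Set (V n)), PCone C → ∀ (L : Submodule ℝ (V n)) (y : V n), Unt C L y →
    (∀ t : ℝ, 0 < t → Unt C L (t • y)) ∧
    (∀ z ∈ L, z - y ∈ closure C → Unt C L z) ∧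
    (∀ z ∈ L, z ∈ closure C → Unt C L (y + z)) ∧
    (∀ z ∈ L, ∃ ε : ℝ, 0 < ε ∧ Unt C L (y - ε • z)) ∧
    (∀ z ∈ L, ∃ t : ℝ, 0 < t ∧ y + t • z ∈ Face C y) ∧
    (Ext C y → ∀ z ∈ L, ∃ c : ℝ, z = c • y)

/-- **Row BCP** (bounded components).

Proof.  `M > 0` may be assumed: if `M ≤ 0` then `-y = (M q - y) + (-M) q ∈ closure C`
(`q = ∑ x_a`), so `y = 0` (salient) and `y' = 0` works (`M • x_a`: for `M = 0` fine; for `M < 0`,
`0 - y`.. replace `M` by `1` in the conclusion; therefore the conclusion is stated with some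
`M' > 0`).  `q + y ∈ Face C q`: `(q + y) - q = y ∈ closure C` and
`q - ε (q + y) = ε (M q - y)` for `ε = 1/(1 + M)`.  So `q + y ∈ W` by `Full`, hence `y ∈ W` and
`y = ∑ y_a` (BFA 4); `comp` gives `y_a ∈ closure C`, and `comp` for the family `M x_a - y_a`. -/
def BcpStmt : Prop :=
  ∀ (n : ℕ) (C : Set (V n)) (Γ : Subgroup (GL (Fin n) ℝ)), PCone C →
    ∀ (K : ℕ) (L : Fin K → Submodule ℝ (V n)) (w : Fin K → V n) (β : Fin K → Fin K),
      Box C Γ L w β → Full C (⨆ a, L a) →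
      ∀ x : Fin K → V n, (∀ a, x a ∈ L a) → (∀ a, x a ∈ closure C) → ∑ a, x a ∉ C →
      ∀ y ∈ closure C, ∀ M : ℝ, M • (∑ a, x a) - y ∈ closure C →
        ∃ (M' : ℝ) (y' : Fin K → V n), 0 < M' ∧ ∑ a, y' a = y ∧
          ∀ a, y' a ∈ L a ∧ y' a ∈ closure C ∧ M' • x a - y' a ∈ closure C

/-- **Row STC** (strictness from maximality).

Proof.  Let `x, y ∈ D_a = L a ∩ closure C` be independent (`Ind2`), suppose `¬ Unt (x + y)`.
`ε₀ = max {ε ≥ 0 : x - ε y ∈ closure C}`, `ε₁ = max {ε ≥ 0 : y - ε x ∈ closure C}` (closed sets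
containing `0`, bounded by `PCone.normal` since `y ≠ 0`, `x ≠ 0`).  `ε₀ ε₁ < 1`: `x ≥ ε₀ y ≥ ε₀ ε₁ x`
gives `ε₀ ε₁ ≤ 1`, and if `ε₀ ε₁ = 1` then `x - ε₀ y` and `-(x - ε₀ y) = ε₀ (y - ε₁ x)` are in
`closure C`, so `x = ε₀ y`, contradiction.  `e₁ = x - ε₀ y`, `e₂ = y - ε₁ x`: in `D_a`, nonzero,
`e₁ ≤ x`, `e₂ ≤ y`.  If `M e₂ - e₁ ∈ closure C` with `M > 0`, then `e₂ - η e₁ =
(1 + η ε₀) y - (ε₁ + η) x ∈ closure C`, `η = 1/M`, so `(ε₁ + η)/(1 + η ε₀) ≤ ε₁` by maximality, so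
`1 ≤ ε₀ ε₁`, contradiction; the same with `1` and `2` exchanged.
`u = ∑_{β i = a} w_i` is a unit of `L a` (BFA 3).  The fibre of `a` has exactly two elements: it is
nonempty (`bot`, `x ≠ 0`), and if it has one element, `one` makes `x, y` dependent; `three`.
So there is `i` with `β i ≠ a` (`K ≥ 3`), `u ∉ C` (`pes.bd`), `u ≠ 0`, `u ∈ Hull`, so `u ∈ LamC` (CLO,
constant sequence); `e₁ ≤ x ≤ M u`, so `e₁, e₂ ∈ LamC` by FLM.
Index type `ι = Option (Option (Option {i // β i ≠ a}))`, `card ι = K - 2 + 3 = K + 1`; family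
`f_m = (e₁, e₂, t_m u, (t_m w_i)_{β i ≠ a})`, `t_m = 1/(m+1)`, sum
`p_m = e₁ + e₂ + t_m ∑ w ∈ C ∩ Hull`.  Zoom (ZOM): `G_m p_{φ m} → p ∈ C`, `X_m = G_m f_{φ m}`, LIM:
on a subsequence `X_m → X`.  Omit condition: if the sum of the `X_j`, `j ≠ o`, is in `C`, then (absorb)
there is `M > 0` such that for all large `m`: `M (p_m - f_m(o)) - f_m(o) ∈ C` (as in the file
`Helper37_PFS/C22.lean`, `hgen`).
`o = e₁`: `M (e₂ + t ∑ w) - e₁ ∈ closure C` for `t = t_m → 0`, so `M e₂ - e₁ ∈ closure C`,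
excluded.  `o = e₂`: the same.
`o = u`: the vector `M (e₁ + e₂ + t ∑_{β i≠a} w_i) - t u` is in `C`; its `L a` component
`M (e₁ + e₂) - t u` is in `closure C` (`comp`), and `x + y ≥ e₁ + e₂ ≥ (t/M) u`, so `x + y` is a
unit (UNF 1, 2), contradiction.
`o = w_i`: adding nonnegative vectors, `M' ∑_{l ≠ i} w_l - w_i ∈ closure C` for some `M' > 0`: the
component in `L b`, `b = β i`, is `M t ∑_{β l = b, l ≠ i} w_l - t w_i ∈ closure C`; add
`M t ∑_{β l ≠ b} w_l` and divide by `t`: `M ∑_{l≠i} w_l - w_i ∈ closure C`, so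
`(M+1) ∑_{l≠i} w_l ≥ ∑ w ∈ C`, contradicting `bd`.
So there is an `IsPES` with `K + 1` vertices (reindex, ELM 3), contradicting `MaxCard`. -/
def StcStmt : Prop :=
  ∀ (n : ℕ) (C : Set (V n)) (Γ : Subgroup (GL (Fin n) ℝ)), CC C Γ →
    ∀ K : ℕ, 3 ≤ K → MaxCard C Γ K →
    ∀ (L : Fin K → Submodule ℝ (V n)) (w : Fin K → V n) (β : Fin K → Fin K),
      Box C Γ L w β → Strict C L

/-- **Row EXT** (extreme rays of a full box).

Proof.  (1) `e ∈ L a ∩ closure C` not a unit of `L a`.  `e ∉ C`: otherwise BFA (2) for the family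
`Pi.single a e` says that `e` is a unit of `L a`.  Let `y ∈ closure C`, `y ≤ M e`.  BCP for the
family `Pi.single a e`: `y = ∑ y_b`, `y_b ∈ closure C`, `-y_b ∈ closure C` for `b ≠ a`, so `y_b = 0`
and `y = y_a ∈ L a`.  If `Ind2 e y`, then `e + y` is a unit (`Strict`), and `(1 + M') e - (e + y) ∈
closure C`, so `(1+M') e` and `e` are units (UNF 2, 1), contradiction.  So `α e + γ y = 0` with
`(α, γ) ≠ 0`; if `γ ≠ 0`, `y = -(α/γ) e`; if `γ = 0`, `e = 0`, `-y ∈ closure C`, `y = 0`.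
(2) `a = β i`.  If `w_i` is the only vertex in its fibre: as in (1) `y = y_a ∈ L a` (`w_i ∉ C` by
`bd`, `K ≥ 2`), and `one`.  If `β j = β i`, `j ≠ i`: `w_i` is not a unit of `L a`: otherwise
`∑_{l ≠ j} w_l` has components `w_i` and `∑_{β l = b} w_l`, all units (BFA 3), so it is in `C`
(BFA 2), contradicting `bd`.  So (1) applies.
(3) `e = ∑ e_a` (BFA 4), `e_a ∈ closure C` (`comp`), `e - e_a = ∑_{b≠a} e_b ∈ closure C`, so
`e_a = c_a e`; some `e_a ≠ 0`, so `c_a ≠ 0`, `e = c_a⁻¹ e_a ∈ L a`.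
(4) if `i ≠ j`, `β i = β j`, then `w_i` is not a unit of `L (β i)` (shown in (2)); also `0` is not a
unit of `L a` if `a = β j` (otherwise `-w_j ∈ closure C`). -/
def ExtStmt : Prop :=
  ∀ (n : ℕ) (C : Set (V n)) (Γ : Subgroup (GL (Fin n) ℝ)), PCone C →
    ∀ K : ℕ, 3 ≤ K →
    ∀ (L : Fin K → Submodule ℝ (V n)) (w : Fin K → V n) (β : Fin K → Fin K),
      Box C Γ L w β → (∀ i, w i ∈ closure C) → Full C (⨆ a, L a) → Strict C L →
      (∀ a, ∀ e ∈ L a, e ∈ closure C → ¬ Unt C (L a) e → Ext C e) ∧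
      (∀ i, Ext C (w i)) ∧
      (∀ e ∈ ⨆ a, L a, e ∈ closure C → Ext C e → e ≠ 0 → ∃ a, e ∈ L a) ∧
      (∀ i j, i ≠ j → β i = β j → ¬ Unt C (L (β i)) (w i)) ∧
      (∀ j, ¬ Unt C (L (β j)) 0)

/-- **Row FC2** (two-dimensional faces).

Proof.  `y ∈ Face C (e + e')`: `y ∈ closure C` and `M (e + e') - y ∈ closure C` for some `M`.  BCP
for the family `e` at `a`, `e'` at `b`, `0` elsewhere: `y = ∑ y_d`, `y_d = 0` for `d ≠ a, b`
(`-y_d ∈ closure C`), `M' e - y_a ∈ closure C`, so `y_a = c e` (`Ext`), `y_b = c' e'`. -/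
def Fc2Stmt : Prop :=
  ∀ (n : ℕ) (C : Set (V n)) (Γ : Subgroup (GL (Fin n) ℝ)), PCone C →
    ∀ (K : ℕ) (L : Fin K → Submodule ℝ (V n)) (w : Fin K → V n) (β : Fin K → Fin K),
      Box C Γ L w β → Full C (⨆ a, L a) →
      ∀ a b, a ≠ b → ∀ e ∈ L a, ∀ e' ∈ L b, e ∈ closure C → e' ∈ closure C → Ext C e → Ext C e' →
        e + e' ∉ C → ∀ y ∈ Face C (e + e'), ∃ c c' : ℝ, y = c • e + c' • e'

/-- **Row PRB** (adapted simplices through a given point).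

Proof.  `p = ∑ p_a`, `p_a ∈ L a` a unit (BFA 4, 2).  Choose for every `i`: if the fibre of `i` is
`{i}`, `w'_i = p_{β i}` `= c w_i` (`one`), `c > 0` (`p_a ∈ closure C`, `p_a ≠ 0` because `0` is not a
unit, EXT 4).  If the fibre of `a` is `{i, j}`, `i < j`: `τ = max {t ≥ 0 : p_a - t w_i ∈ closure C}`
(closed, bounded by `normal`, `w_i ≠ 0`; `τ > 0` since `p_a` is a unit), `w'_i = τ w_i`,
`w'_j = p_a - τ w_i`; `w'_j` is not a unit (otherwise UNF 4 with `z = w_i` contradicts maximality),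
`w'_i` is not a unit (EXT 4, UNF 1), so `w'_j ≠ 0`.  In all cases the sum over the fibre is `p_a`, so
`∑ w' = p`.
`LamC`: positive multiples of `w_i` are in `LamC`.  `w'_j ≤ p_a ≤ M u_a`, `u_a = ∑_{β l = a} w_l`
(unit), `u_a ∉ C` (`bd`, the fibre has two elements and `K ≥ 3`), `u_a ∈ Hull`, so `u_a ∈ LamC` (CLO),
`w'_j ∈ LamC` by FLM.  PES by CRT: `∑ w' = p ∈ C`; the sum with `i` omitted has component at `β i`
equal to `0` or to the other (non unit) vertex of the fibre, so it is not in `C` (BFA 2, EXT 4).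
The other fields of `Box`: `comp`, `bot`, `two`, `three` are the same; `mem` clear; `one`: multiples
of `w_i` are multiples of `c w_i`. -/
def PrbStmt : Prop :=
  ∀ (n : ℕ) (C : Set (V n)) (Γ : Subgroup (GL (Fin n) ℝ)), CC C Γ →
    ∀ K : ℕ, 3 ≤ K →
    ∀ (L : Fin K → Submodule ℝ (V n)) (w : Fin K → V n) (β : Fin K → Fin K),
      Box C Γ L w β → Full C (⨆ a, L a) → Strict C L →
      ∀ p ∈ ⨆ a, L a, p ∈ C → ∃ w' : Fin K → V n, Box C Γ L w' β ∧ ∑ i, w' i = p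

/-- **Row BAC** (boxes under the group).

Proof.  `pes`: ELM (2).  `comp`: if `x_a = act g y_a`, `y_a ∈ L a`, then
`∑ x_a = act g (∑ y_a) ∈ closure C` iff `∑ y_a ∈ closure C` (`CC.act_cl_iff`).  `two`: IMG (1).
`Full`: `q = act g q'`, `y ∈ Face C q` iff `act g⁻¹ y ∈ Face C q'`. -/
def BacStmt : Prop :=
  ∀ (n : ℕ) (C : Set (V n)) (Γ : Subgroup (GL (Fin n) ℝ)), CC C Γ →
    ∀ (K : ℕ) (L : Fin K → Submodule ℝ (V n)) (w : Fin K → V n) (β : Fin K → Fin K),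
      Box C Γ L w β → ∀ g ∈ Γ, ∀ s : ℝ, 0 < s →
      Box C Γ (fun a => img g (L a)) (fun i => s • act g (w i)) β

/-! ## C. Limits -/

/-- **Row BLM** (limits of boxes).

Proof.  LPS: on a subsequence `x_m → w`, an `IsPES` with `∑ w = p`.  LSC for each of the finitely
many sequences `L_m a` and for `⨆ a, L_m a`, one after the other (LSF 1 keeps the earlier limits):
`L_m a → L' a`, `⨆ a, L_m a → N`, all dimensions preserved.
`comp`: let `y_a ∈ L' a`, `∑ y_a ∈ closure C`; `y_a = lim y_{m,a}`, `y_{m,a} ∈ L_m a`;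
`u_{m,a} = ∑_{β i = a} x_{m,i} → u_a = ∑_{β i = a} w_i`.  For `ε > 0`:
`∑ y_a + ε p ∈ C` is the limit of `∑_a (y_{m,a} + ε u_{m,a})`, so for large `m` this is in `C` and by
`comp` `y_{m,a} + ε u_{m,a} ∈ closure C`; so `y_a + ε u_a ∈ closure C`; `ε → 0`.
`N = ⨆ a, L' a`: `L' a ≤ N` by LSF (5).  Let `x ∈ N`, `x = lim x_m`, `x_m ∈ ⨆ a, L_m a`,
`x_m = ∑ x_{m,a}` (BFA 4).  `absorb`: `M p - x ∈ C` and `M p + x ∈ C`, so for large `m`
`M ∑ x_m' ∓ x_m ∈ C` (here `∑ x_m'` denotes the sum of the simplex) and by `comp`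
`M u_{m,a} ∓ x_{m,a} ∈ closure C`; `0 ≤ M u - x ≤ 2 M u`, so `x_{m,a}` is bounded (`normal`); on a
subsequence `x_{m,a} → x_a ∈ L' a` (second half of `LimS`), `x = ∑ x_a`.
`bot`: dimension `0`.  `one`: `finrank (L_m (β i)) = 1` (it contains `x_{m,i} ≠ 0`), so
`finrank (L' (β i)) = 1`, it contains `w_i ≠ 0`.  `two`: dimension.  `three`: only `β`.  `mem`: second
half of `LimS`. -/
def BlmStmt : Prop :=
  ∀ (n : ℕ) (C : Set (V n)) (Γ : Subgroup (GL (Fin n) ℝ)), CC C Γ →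
    ∀ K : ℕ, 3 ≤ K →
    ∀ (L : ℕ → Fin K → Submodule ℝ (V n)) (x : ℕ → Fin K → V n) (β : Fin K → Fin K) (p : V n),
      (∀ m, Box C Γ (L m) (x m) β) → p ∈ C → Tendsto (fun m => ∑ i, x m i) atTop (𝓝 p) →
      ∃ (φ : ℕ → ℕ) (L' : Fin K → Submodule ℝ (V n)) (w : Fin K → V n), StrictMono φ ∧
        (∀ i, Tendsto (fun m => x (φ m) i) atTop (𝓝 (w i))) ∧ ∑ i, w i = p ∧
        (∀ a, LimS (fun m => L (φ m) a) (L' a)) ∧
        LimS (fun m => ⨆ a, L (φ m) a) (⨆ a, L' a) ∧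
        (∀ m, Module.finrank ℝ ↥(⨆ a, L (φ m) a) = Module.finrank ℝ ↥(⨆ a, L' a)) ∧
        Box C Γ L' w β

/-- **Row NSF** (facts on `NearS`).

Proof.  (1) apply `act g`, `act g⁻¹`, scalings (subspaces are invariant under scaling).
(2) `p ≤ p' ≤ 2p`, `p ≤ q ≤ M p`: `2 q` works.  (3) `M p ≤ M' p`.
(4) pass to a subsequence on which `NearS` holds, `q_m ∈ W m`, `p_m ≤ q_m ≤ M p_m`; `q_m ∈ closure C`,
so bounded by `normal`; subsequence `q_m → q ∈ W'` (second half of `LimS`).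
(5) `1 < λ < M`; `q_m ∈ W m`, `q_m → λ p0` (first half); `q_m - p_m → (λ-1) p0 ∈ C`,
`M p_m - q_m → (M - λ) p0 ∈ C`, `C` open. -/
def NsfStmt : Prop :=
  ∀ (n : ℕ) (C : Set (V n)) (Γ : Subgroup (GL (Fin n) ℝ)), CC C Γ →
    (∀ (M : ℝ) (W : Submodule ℝ (V n)) (p : V n), ∀ g ∈ Γ, ∀ t : ℝ, 0 < t →
      (NearS C M (img g W) (t • act g p) ↔ NearS C M W p)) ∧
    (∀ (M : ℝ) (W : Submodule ℝ (V n)) (p p' : V n), NearS C M W p → p' - p ∈ closure C →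
      (2 : ℝ) • p - p' ∈ closure C → 0 ≤ M → NearS C (2 * M) W p') ∧
    (∀ (M M' : ℝ) (W : Submodule ℝ (V n)) (p : V n), M ≤ M' → p ∈ closure C → NearS C M W p →
      NearS C M' W p) ∧
    (∀ (M : ℝ) (W : ℕ → Submodule ℝ (V n)) (W' : Submodule ℝ (V n)) (p : ℕ → V n) (p0 : V n),
      LimS W W' → (∀ m, p m ∈ C) → Tendsto p atTop (𝓝 p0) → (∃ᶠ m in atTop, NearS C M (W m) (p m)) →
      NearS C M W' p0) ∧
    (∀ (M : ℝ) (W : ℕ → Submodule ℝ (V n)) (W' : Submodule ℝ (V n)) (p : ℕ → V n) (p0 : V n),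
      LimS W W' → p0 ∈ C → p0 ∈ W' → Tendsto p atTop (𝓝 p0) → 1 < M →
      ∀ᶠ m in atTop, NearS C M (W m) (p m))

/-! ## D. Rigidity and discreteness -/

/-- **Row A0S.**  Proof.  `q_m ∈ W'`, `p_m ≤ q_m ≤ M p_m`.  `s_m q_m` is in `closure C` and
`≤ M s_m p_m`, bounded (`normal`); on a subsequence `→ q ∈ W'` (closed), `y ≤ q ≤ M y`.  `q ∈ closure C`
since `y` is.  `q ∉ C`: else `M y ∈ C`; `M > 0` (if `M ≤ 0`, `M y + (-M) y = 0 ∈ C`, contradiction),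
so `y ∈ C`.  `z ≤ β y`; `β ≤ max β 1 =: β'`, `z ≤ β' y ≤ β' q`, so `q + z ∈ Face C q`
(`(q + z) - q = z`, `q - ε (q + z) = ε (β' q - z)`, `ε = 1/(1+β')`), `Full`: `q + z ∈ W'`,
`z ∈ W'`. -/
def A0sStmt : Prop :=
  ∀ (n : ℕ) (C : Set (V n)), PCone C → ∀ W' : Submodule ℝ (V n), Full C W' →
    ∀ (p : ℕ → V n) (s : ℕ → ℝ) (y : V n) (M : ℝ), (∀ m, p m ∈ closure C) → (∀ m, 0 < s m) →
      (∀ m, NearS C M W' (p m)) → Tendsto (fun m => s m • p m) atTop (𝓝 y) → y ∉ C →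
      ∀ z ∈ closure C, ∀ β : ℝ, β • y - z ∈ closure C → z ∈ W'

/-- **Row AAS.**  Proof.  (1) It is enough to show `L a ≤ W'` for all `a` (then `⨆ L ≤ W'`, and
the dimensions agree).  If no `β i = a`, `L a = ⊥`.  Otherwise `u = ∑_{β i = a} w_i ∈ W'` is a unit of
`L a` (BFA 3), in `closure C`, not in `C` (`bd`: the fibre has at most two elements by `three`, `K ≥ 3`).
For `z ∈ L a` UNF (5): `u + t z ∈ Face C u ⊆ W'`, `t > 0`, so `z ∈ W'`.
(2) For `j ≠ i` use A0S with `p_N = pt w (N + 1 off i, 0 at i)`, `s_N = 2^{-(N+1)}`, limit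
`∑_{l≠i} w_l ∉ C`, `z = w_j`, `β = 1`.
(3) Let `i` be any index; `i' = i` if `i ∉ J`, any `i' ∉ J` if `i ∈ J`.  `u_N = N + 1` on `J`, `N` at
`i'`, `0` elsewhere (outside `J`): in the region.  `2^{-N} pt w u_N → 2 ∑_J w_l + w_{i'} =: y ∉ C`
(`bd`, some index is neither in `J` nor `i'`), `w_i ≤ y`: A0S gives `w_i ∈ W'`.  Then (1). -/
def AasStmt : Prop :=
  ∀ (n : ℕ) (C : Set (V n)) (Γ : Subgroup (GL (Fin n) ℝ)), PCone C →
    ∀ K : ℕ, 3 ≤ K →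
    ∀ (L : Fin K → Submodule ℝ (V n)) (w : Fin K → V n) (β : Fin K → Fin K)
      (W' : Submodule ℝ (V n)), Box C Γ L w β → (∀ i, w i ∈ closure C) → Full C W' →
      Module.finrank ℝ W' = Module.finrank ℝ ↥(⨆ a, L a) →
      ((∀ i, w i ∈ W') → (⨆ a, L a) = W') ∧
      (∀ (i : Fin K) (M : ℝ),
        (∀ v : Fin K → ℤ, (∀ j, j ≠ i → v i < v j) → NearS C M W' (pt w v)) →
        ∀ j, j ≠ i → w j ∈ W') ∧
      (∀ (J : Finset (Fin K)) (M : ℝ), J.Nonempty → 2 ≤ (Jᶜ).card →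
        (∀ u : Fin K → ℤ, (∀ i, i ∉ J → ∀ j, j ∈ J → u i < u j) → NearS C M W' (pt w u)) →
        (⨆ a, L a) = W')

/-- **Row MNS** (minimal exponents; adapt `Pool/Agent/Helper82_PFS/MIN.lean`).

Proof.  Fix `m`.  If all `pt w u` were `NearS 2 (W m)`, AAS (3) with `J = {0}` would give
`⨆ L = W m`.  Choose a bad `u_m` of minimal spread.  Spread to infinity: for fixed `L` the set of
`u` with `u_0 = 0`, `|u_i| ≤ L` is finite, and for each of them NSF (5) (constant `p`,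
`pt w u ∈ C ∩ ⨆ L`) gives `NearS 2 (W m)` eventually; a general `u` of spread `≤ L` is such a vector
plus a constant, `pt w (u + a) = 2^a pt w u`, and `NearS` is invariant under scaling of the point
(scale `q`). -/
def MnsStmt : Prop :=
  ∀ (n : ℕ) (C : Set (V n)) (Γ : Subgroup (GL (Fin n) ℝ)), CC C Γ → ∀ K : ℕ, 3 ≤ K →
    ∀ (W : ℕ → Submodule ℝ (V n)) (L : Fin K → Submodule ℝ (V n)) (w : Fin K → V n)
      (β : Fin K → Fin K), Box C Γ L w β → (∀ m, Full C (W m)) →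
      (∀ m, Module.finrank ℝ (W m) = Module.finrank ℝ ↥(⨆ a, L a)) →
      LimS W (⨆ a, L a) → (∀ m, (⨆ a, L a) ≠ W m) →
      ∃ u : ℕ → Fin K → ℤ,
        (∀ m, ¬ NearS C 2 (W m) (pt w (u m))) ∧
        (∀ (m : ℕ) (v : Fin K → ℤ) (D : ℤ), (∀ i j, v i - v j ≤ D) →
          (∃ i j, D < u m i - u m j) → NearS C 2 (W m) (pt w v)) ∧
        (∀ D : ℤ, ∀ᶠ m in atTop, ∃ i j, D ≤ u m i - u m j)

/-- **Row ZSS** (the zoom step; compare `Pool/Agent/Helper37_PFS/ZST2.lean`).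

Proof.  `p_m = pt w u_m ∈ C ∩ Hull` (ELM 5).  `Full`, `Strict` for all boxes (FamS, STC).
`q_m ∈ ⨆ L'_m`, `p_m ≤ q_m ≤ M₁ p_m`, so `q_m ∈ C`; PRB: `x'_m` adapted, `Box (L'_m) (x'_m) (β'_m)`,
`∑ x'_m = q_m`.  Pass to a subsequence on which `β'_m = β°` is constant (finitely many maps), then
zoom (ZOM): `G_m p_{φ m} → p ∈ C`, `G_m = s_m g_m`; `G_m q_m` is bounded (`normal`), subsequence
`→ Q ≥ p`, `Q ∈ C`.  BAC: `(img g_m L_a, G_m (2^{u_m i} w_i), β)` (first rescale the vertices: a box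
stays a box if `w_i` is replaced by `c_i w_i`, `c_i > 0`: ELM 1, `one` with `c / c_i`) and
`(img g_m L'_{m,a}, G_m x'_{m,i}, β°)` are boxes.  BLM twice: limits `(Lo, wo, β)` with `∑ wo = p`
and `(Lo', wo', β°)` with `∑ wo' = Q`; dimensions preserved (IMG 1, 5).  `P (⨆ Lo)`, `P (⨆ Lo')` by
`FamS.act` (IMG 5) and `FamS.closed` (`p ∈ ⨆ Lo`, `p ∈ C`).
`⨆ Lo ≠ ⨆ Lo'`: otherwise `p ∈ ⨆ Lo'`, NSF (5): `NearS M₂ (img g_m ⨆ L'_m) (G_m p_m)` for large `m`, and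
NSF (1): `NearS M₂ (⨆ L'_m) (p_m)`, contradiction.
Nearness: `G_m pt w (u_m + v) = ∑ 2^{v_i} G_m (2^{u_m i} w_i) → pt wo v ∈ C`; NSF (1), (4). -/
def ZssStmt : Prop :=
  ∀ (n : ℕ) (C : Set (V n)) (Γ : Subgroup (GL (Fin n) ℝ)), CC C Γ → ∀ K : ℕ, 3 ≤ K →
    MaxCard C Γ K → ∀ P : Submodule ℝ (V n) → Prop, FamS C Γ P →
    ∀ (L : Fin K → Submodule ℝ (V n)) (w : Fin K → V n) (β : Fin K → Fin K)
      (L' : ℕ → Fin K → Submodule ℝ (V n)) (x : ℕ → Fin K → V n) (β' : ℕ → Fin K → Fin K)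
      (u : ℕ → Fin K → ℤ) (M₁ M₂ : ℝ), 1 < M₂ →
      Box C Γ L w β → P (⨆ a, L a) → (∀ m, Box C Γ (L' m) (x m) (β' m)) →
      (∀ m, P (⨆ a, L' m a)) →
      (∀ m, Module.finrank ℝ ↥(⨆ a, L' m a) = Module.finrank ℝ ↥(⨆ a, L a)) →
      (∀ m, NearS C M₁ (⨆ a, L' m a) (pt w (u m))) →
      (∀ m, ¬ NearS C M₂ (⨆ a, L' m a) (pt w (u m))) →
      ∃ (φ : ℕ → ℕ) (Lo : Fin K → Submodule ℝ (V n)) (wo : Fin K → V n)
        (Lo' : Fin K → Submodule ℝ (V n)) (wo' : Fin K → V n) (βo' : Fin K → Fin K),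
        StrictMono φ ∧ Box C Γ Lo wo β ∧ Box C Γ Lo' wo' βo' ∧ P (⨆ a, Lo a) ∧ P (⨆ a, Lo' a) ∧
        Module.finrank ℝ ↥(⨆ a, Lo' a) = Module.finrank ℝ ↥(⨆ a, Lo a) ∧
        (⨆ a, Lo a) ≠ (⨆ a, Lo' a) ∧
        ∀ (v : Fin K → ℤ) (M : ℝ),
          (∃ᶠ m in atTop, NearS C M (⨆ a, L' (φ m) a) (pt w (fun i => u (φ m) i + v i))) →
          NearS C M (⨆ a, Lo' a) (pt wo v)

/-- **Row DSS** (adapt `Pool/Agent/Helper37_PFS/DS12.lean`).

Proof.  `u_m` from MNS (for `W m = ⨆ L'_m`).  `u'_m = u_m - 1_{argmax}`: if the spread of `u_m` is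
`≥ 1`, the spread of `u'_m` is smaller, so `NearS 2 (pt w u'_m)`, and
`pt w u'_m ≤ pt w u_m ≤ 2 pt w u'_m`: NSF (2) gives `NearS 4 (pt w u_m)`.  GAP: subsequence and `J` with
`u_i - u_j → ∞` for `i ∉ J`, `j ∈ J`.  ZSS (`M₁ = 4`, `M₂ = 2`): `Lo, wo, Lo', wo'`.  If `v_i < v_j`
for `i ∉ J`, `j ∈ J`, the spread of `u_m + v` is smaller than that of `u_m` for large `m`, so
`NearS 2 (⨆ L'_m) (pt w (u_m + v))` by MNS, and `NearS 2 (⨆ Lo') (pt wo v)`.  If `card Jᶜ ≥ 2`, AAS (3)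
gives `⨆ Lo = ⨆ Lo'`, contradiction.  So `Jᶜ = {i}` and we have a `Pair`. -/
def DssStmt : Prop :=
  ∀ (n : ℕ) (C : Set (V n)) (Γ : Subgroup (GL (Fin n) ℝ)), CC C Γ → ∀ K : ℕ, 3 ≤ K →
    MaxCard C Γ K → ∀ P : Submodule ℝ (V n) → Prop, FamS C Γ P →
    ∀ (L : Fin K → Submodule ℝ (V n)) (w : Fin K → V n) (β : Fin K → Fin K)
      (L' : ℕ → Fin K → Submodule ℝ (V n)) (x : ℕ → Fin K → V n) (β' : ℕ → Fin K → Fin K),
      Box C Γ L w β → P (⨆ a, L a) → (∀ m, Box C Γ (L' m) (x m) (β' m)) →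
      (∀ m, P (⨆ a, L' m a)) →
      (∀ m, Module.finrank ℝ ↥(⨆ a, L' m a) = Module.finrank ℝ ↥(⨆ a, L a)) →
      LimS (fun m => ⨆ a, L' m a) (⨆ a, L a) → (∀ m, (⨆ a, L a) ≠ ⨆ a, L' m a) →
      ∃ (Lo : Fin K → Submodule ℝ (V n)) (wo : Fin K → V n) (βo : Fin K → Fin K)
        (Lo' : Fin K → Submodule ℝ (V n)) (wo' : Fin K → V n) (βo' : Fin K → Fin K) (i : Fin K),
        Pair C Γ P Lo wo βo Lo' wo' βo' i

/-- **Row BBS** (adapt `Pool/Agent/Helper37_PFS/BBB2.lean`).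

Proof.  Suppose not: `¬ NearS M` for infinitely many `N`; take a strictly increasing sequence `N_m ≥ 2`
of such `N`.  ZSS with constant second box, `u_m` the exponent vectors for `N_m` (in the region, so
`NearS 2`), `M₁ = 2`, `M₂ = M`: `Lo, wo, Lo', wo'` with `⨆ Lo ≠ ⨆ Lo'`.  `J = {i, j}ᶜ` is nonempty
(`K ≥ 3`), `card Jᶜ = 2`.  If `v_a < v_b` for `a ∉ J`, `b ∈ J`, then for large `m` `u_m + v` is in the
region `{v_i < v_l}`: at `l ∈ J`: `1 + v_l > v_i`; at `j`: `N_m + v_j > v_i`.  So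
`NearS 2 (⨆ Lo') (pt wo v)`, and AAS (3) gives `⨆ Lo = ⨆ Lo'`, contradiction. -/
def BbsStmt : Prop :=
  ∀ (n : ℕ) (C : Set (V n)) (Γ : Subgroup (GL (Fin n) ℝ)), CC C Γ → ∀ K : ℕ, 3 ≤ K →
    MaxCard C Γ K → ∀ P : Submodule ℝ (V n) → Prop, FamS C Γ P →
    ∀ (L : Fin K → Submodule ℝ (V n)) (w : Fin K → V n) (β : Fin K → Fin K)
      (L' : Fin K → Submodule ℝ (V n)) (w' : Fin K → V n) (β' : Fin K → Fin K) (i : Fin K),
      Pair C Γ P L w β L' w' β' i →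
      ∀ j, j ≠ i → ∀ M : ℝ, 1 < M → ∀ᶠ N : ℕ in atTop,
        NearS C M (⨆ a, L' a) (pt w (fun l => if l = i then 0 else if l = j then (N : ℤ) else 1))

/-- **Row SH1** (position of the common vertices in the second box).

Proof.  `w_j`, `j ≠ i`, is `Ext` (EXT 2 for the first box), nonzero, in `⨆ L'`, so in `L' (b j)` for some
`b j` (EXT 3 for the second box).
(⇐, and the equality of the factors) `β j = β j'`, `j ≠ j'`: `u = w_j + w_{j'}` is the sum over the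
fibre of `β j` (`three`), a unit of `L (β j)` (BFA 3), `u ∉ C` (`bd`, `K ≥ 3`).  If `b j ≠ b j'`, then for
`z ∈ L (β j)` UNF (5) gives `u + t z ∈ Face C u` and FC2 (second box, `e = w_j`, `e' = w_{j'}`) gives
`u + t z ∈ span {w_j, w_{j'}}`, so `z` too, and `finrank (L (β j)) ≤ 2`, contradicting `two`.  So
`b j = b j'`.  `L (β j) ≤ L' (b j)`: for `z ∈ L (β j)`, `u + t z ∈ Face C u`; BCP (second box, family
`u` at `b j`, `0` elsewhere) shows that `u + t z ∈ L' (b j)`, so `z ∈ L' (b j)`.  `≥`: `w_j`, `w_{j'}`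
are independent (LIN), so `u` is a unit of `L' (b j)` (`Strict`), and the same argument with the first
box (family `u` at `β j`) gives `L' (b j) ≤ L (β j)`.
(⇒) `b j = b j' =: b`, `j ≠ j'`, suppose `β j ≠ β j'`.  `w_j, w_{j'} ∈ L' b` are independent, so
`u = w_j + w_{j'}` is a unit of `L' b` (`Strict`), `u ∉ C` (`bd`).  UNF (5) and FC2 (first box) give
`L' b ≤ span {w_j, w_{j'}}`, `finrank (L' b) ≤ 2`.  `b = β' i'` for some `i'` (`bot`); if the fibre of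
`b` has one element, `one` makes `w_j, w_{j'}` dependent; if two, `two` gives `finrank ≥ 3`;
contradiction. -/
def Sh1Stmt : Prop :=
  ∀ (n : ℕ) (C : Set (V n)) (Γ : Subgroup (GL (Fin n) ℝ)), CC C Γ → ∀ K : ℕ, 3 ≤ K →
    ∀ (L : Fin K → Submodule ℝ (V n)) (w : Fin K → V n) (β : Fin K → Fin K)
      (L' : Fin K → Submodule ℝ (V n)) (w' : Fin K → V n) (β' : Fin K → Fin K) (i : Fin K),
      Box C Γ L w β → Box C Γ L' w' β' → Full C (⨆ a, L a) → Full C (⨆ a, L' a) →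
      Strict C L → Strict C L' → (∀ j, j ≠ i → w j ∈ ⨆ a, L' a) →
      ∃ b : Fin K → Fin K, (∀ j, j ≠ i → w j ∈ L' (b j)) ∧
        (∀ j j', j ≠ i → j' ≠ i → j ≠ j' → (b j = b j' ↔ β j = β j')) ∧
        (∀ j j', j ≠ i → j' ≠ i → j ≠ j' → β j = β j' → L (β j) = L' (b j))

/-- **Row SH2** (counting).

Proof.  `∑_a N'(a) = K`, `∑_a c(a) = K - 1` (`Finset.card_eq_sum_card_fiberwise` or
`Finset.sum_card...`), `c ≤ N'`, so `∑ (N' - c) = 1` and exactly one term is `1`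
(`Finset.sum_eq_one_iff`-like; or: some term is positive, and if it were `≥ 2` or another one were
positive the sum would be `≥ 2`). -/
def Sh2Stmt : Prop :=
  ∀ (K : ℕ) (i : Fin K) (b β' : Fin K → Fin K),
    (∀ a, (Finset.univ.filter (fun j => j ≠ i ∧ b j = a)).card
      ≤ (Finset.univ.filter (fun j => β' j = a)).card) →
    ∃ a', (Finset.univ.filter (fun j => j ≠ i ∧ b j = a')).card + 1
        = (Finset.univ.filter (fun j => β' j = a')).card ∧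
      ∀ a, a ≠ a' → (Finset.univ.filter (fun j => j ≠ i ∧ b j = a)).card
        = (Finset.univ.filter (fun j => β' j = a)).card

/-- the structure of the second box of a pair -/
def Shape {n K : ℕ} (L : Fin K → Submodule ℝ (V n)) (w : Fin K → V n) (β : Fin K → Fin K)
    (L' : Fin K → Submodule ℝ (V n)) (w' : Fin K → V n) (β' : Fin K → Fin K) (i : Fin K)
    (a' : Fin K) : Prop :=
  (∀ b, b ≠ a' → L' b ≤ ⨆ a, L a) ∧
  ((∃ i', a' = β' i' ∧ (∀ x ∈ L' a', ∃ c : ℝ, x = c • w' i') ∧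
      ∀ j, j ≠ i → ∃ b, b ≠ a' ∧ w j ∈ L' b ∧ (β j ≠ β i → L (β j) = L' b)) ∨
   (∃ l, l ≠ i ∧ w l ∈ L' a' ∧ 3 ≤ Module.finrank ℝ (L' a') ∧
      ∀ j, j ≠ i → j ≠ l → ∃ b, b ≠ a' ∧ w j ∈ L' b ∧ (β j ≠ β i → L (β j) = L' b)))

/-- **Row SH3** (structure of the second box).

Proof.  `b` from SH1; `N'(a)` = number of `i'` with `β' i' = a`, `c(a)` = number of `j ≠ i` with
`b j = a`.  `c(a) ≤ N'(a)`: if `N'(a) = 0`, `L' a = ⊥` contains no `w_j ≠ 0`; if `N'(a) = 1`, `L' a` is a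
line (`one`) and contains at most one `w_j` (LIN); `N'(a) ≤ 2` (`three` for `β'`), and `c(a) ≤ 2`
because three indices with the same `b` have the same `β` (SH1), against `three` for `β`.  SH2: `a'`.
Claim: for `j ≠ i` with `b j ≠ a'` and `β j ≠ β i`, `L (β j) = L' (b j)`.  If there is `j' ≠ i, j` with
`β j' = β j`, this is SH1.  Otherwise the fibre of `β j` is `{j}` and `L (β j) = ℝ w_j` (`one`);
`c(b j) = 1` (another `j'` with `b j' = b j` would have `β j' = β j`), so `N'(b j) = 1`, `L' (b j)` is a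
line containing `w_j ≠ 0`.
`L' b₀ ≤ ⨆ L` for `b₀ ≠ a'`: `N'(b₀) = c(b₀)`; if it is `0`, `⊥`; if `1`, a line containing some
`w_j ≠ 0`; if `2`, `b j = b j' = b₀` with `j ≠ j'`, so `L' b₀ = L (β j)` (SH1).
If `N'(a') = 1`: `a' = β' i'`, `one`, and `c(a') = 0`, so all `b j ≠ a'`: first alternative (take
`b = b j`).  If `N'(a') = 2`: `two` for `β'` gives `3 ≤ finrank (L' a')`, `c(a') = 1`: unique `l`: second
alternative. -/
def Sh3Stmt : Prop :=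
  ∀ (n : ℕ) (C : Set (V n)) (Γ : Subgroup (GL (Fin n) ℝ)), CC C Γ → ∀ K : ℕ, 3 ≤ K →
    ∀ (L : Fin K → Submodule ℝ (V n)) (w : Fin K → V n) (β : Fin K → Fin K)
      (L' : Fin K → Submodule ℝ (V n)) (w' : Fin K → V n) (β' : Fin K → Fin K) (i : Fin K),
      Box C Γ L w β → Box C Γ L' w' β' → Full C (⨆ a, L a) → Full C (⨆ a, L' a) →
      Strict C L → Strict C L' → (∀ j, j ≠ i → w j ∈ ⨆ a, L' a) →
      ∃ a', Shape L w β L' w' β' i a'

/-- **Row FMX** (zoom with two speeds; the proof is contained in `Pool/Agent/Helper37_PFS/C22.lean`,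
from `hsp` on: copy and adapt).

Proof.  `x = ∑_{m≠l} w_m`.  Suppose `M x - z ∉ closure C` for all `M > 0` (then for all real `M`).  `c ∈ C ∩ Hull`.
For `t_m = 1/(m+1)` choose `0 < r_m ≤ t_m` with `(m+1) (x + r_m c) - t_m z ∉ closure C` (otherwise
`r → 0` gives `(m+1) x - t_m z ∈ closure C`).  Zoom at `p_m = x + t_m z + r_m c ∈ C ∩ Hull`; the family
`(w_j)_{j≠l}, t_m z, r_m c` (indexed by `Option (Fin K)`) converges after zooming (LIM) to `X`.  Omit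
conditions (`hgen`: if the sum without `o` is in `C` there is `M > 0` with
`M (p_m - f_m(o)) - f_m(o) ∈ C` for all large `m`): omit `t z`: `M (x + r_m c) - t_m z ∈ C`,
contradiction for `m + 1 ≥ M`; omit `r c`: `M (x + t z) ∈ C`, so `x + z ∈ C`, excluded; omit `w_a`:
`M (p_m - w_a) - w_a ∈ C`, limit `M (x - w_a) - w_a ∈ closure C`, so
`(M + 1) ∑_{j ≠ a, l} w_j ≥ x`, and adding `w_l`: `(M+1) ∑_{j≠a} w_j ≥ ∑ w ∈ C` (`M + 1 ≥ 1`),
contradicting `bd`.  So there is an `IsPES` with `K + 1` vertices, contradicting `MaxCard`. -/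
def FmxStmt : Prop :=
  ∀ (n : ℕ) (C : Set (V n)) (Γ : Subgroup (GL (Fin n) ℝ)), CC C Γ → ∀ K : ℕ, 3 ≤ K →
    MaxCard C Γ K → ∀ (w : Fin K → V n) (l : Fin K) (z : V n), IsPES C Γ w → z ∈ LamC C Γ →
      (∑ m ∈ Finset.univ.erase l, w m) + z ∉ C →
      ∃ M : ℝ, 0 < M ∧ M • (∑ m ∈ Finset.univ.erase l, w m) - z ∈ closure C

/-- **Row PSI** (extension of functionals from a factor).

Proof.  On `W = ⨆ L` define `f (∑ x_b) = φ (x_a)` (well defined by BFA 1, 4; for instance through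
`LinearMap` on the internal direct sum, or `Submodule.linearProjOfIsCompl` for `L a` and
`⨆_{b≠a} L b`); `f ≥ 0` on `W ∩ closure C` by `comp`.  `W` meets `C` (`∑ w`), so for every `v ∈ V` there
is `x ∈ W` with `x + v ∈ closure C` (`absorb`): `riesz_extension` with the cone `closure C`
(as a `PointedCone`: `zero_cl`, `cl_add`, `cl_smul`) extends `f` to `ψ : V →ₗ ℝ`, `ψ ≥ 0` on
`closure C`. -/
def PsiStmt : Prop :=
  ∀ (n : ℕ) (C : Set (V n)) (Γ : Subgroup (GL (Fin n) ℝ)), PCone C →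
    ∀ (K : ℕ) (L : Fin K → Submodule ℝ (V n)) (w : Fin K → V n) (β : Fin K → Fin K),
      Box C Γ L w β → ∀ (a : Fin K) (φ : (V n) →ₗ[ℝ] ℝ), (∀ x ∈ L a, x ∈ closure C → 0 ≤ φ x) →
      ∃ ψ : (V n) →ₗ[ℝ] ℝ, (∀ x ∈ closure C, 0 ≤ ψ x) ∧ (∀ x ∈ L a, ψ x = φ x) ∧
        ∀ b, b ≠ a → ∀ x ∈ L b, ψ x = 0

/-- **Row SUP** (supporting functional of a factor).

Proof.  `z = y + ∑_{b≠a} u_b`, `u_b = ∑_{β i = b} w_i` (units, BFA 3).  `z ∉ C` (BFA 2), `z ∈ closure C`.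
As in FUN (`geometric_hahn_banach_open_point`, see `Pool/Agent/Helper60_PFS`): a linear form `φ > 0` on `C`,
`≥ 0` on `closure C`, `φ z = 0`; so `φ y = 0` and `φ u_b = 0` for `b ≠ a`.  If `x` is a unit of `L a`,
`x + ∑_{b≠a} u_b ∈ C` (BFA 2), so `φ x > 0`. -/
def SupStmt : Prop :=
  ∀ (n : ℕ) (C : Set (V n)) (Γ : Subgroup (GL (Fin n) ℝ)), PCone C →
    ∀ (K : ℕ) (L : Fin K → Submodule ℝ (V n)) (w : Fin K → V n) (β : Fin K → Fin K),
      Box C Γ L w β → (∀ i, w i ∈ closure C) → ∀ (a : Fin K) (y : V n), y ∈ L a → y ∈ closure C →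
      ¬ Unt C (L a) y →
      ∃ φ : (V n) →ₗ[ℝ] ℝ, (∀ x ∈ closure C, 0 ≤ φ x) ∧ φ y = 0 ∧ ∀ x, Unt C (L a) x → 0 < φ x

/-- **Row CCI** (first shape is impossible).

Proof.  `e = w'_{i'}`, `L' a' = ℝ e`.  Choose `l ≠ i` and `j ≠ i, l` (`K ≥ 3`).  `w_l ∈ L' b_l`,
`b_l ≠ a'`.  FUN for `(w, l)`: `φ > 0` on `C`, `≥ 0` on `closure C`, `φ (w_m) = 0` for `m ≠ l`,
`φ (w_l) > 0`.  PSI for `L'`, the factor `b_l` and `φ`: `ψ`.  Let `χ` be linear with `χ e = 1`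
(`e ≠ 0`); `χ ≥ 0` on `L' a' ∩ closure C` (`c e ∈ closure C` forces `c ≥ 0`); PSI for the factor `a'`:
`ψ''`, `ψ'' e = 1`, `ψ'' = 0` on the other factors.  `κ = ψ''(w_i) > 0`: `ψ''(w_m) = 0` for `m ≠ i`, so
`κ = ψ''(∑ w)`, and `M ∑ w - e ∈ C` for some `M > 0` (absorb), so `M κ ≥ 1`.
Let `M > 1`, `N` large: `p = w_i + 2 ∑_{m≠i,j} w_m + 2^N w_j`, `p ≤ q ≤ M p`, `q = ∑ q_b ∈ ⨆ L'`,
`q ∈ closure C`, `q_b ∈ closure C`; `q_{a'} = c e`.  `c = ψ''(q) ≥ ψ''(p) = κ`.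
`φ(q_{b_l}) = ψ(q) ≥ ψ(p) ≥ 2 φ(w_l)` (`ψ(w_i) ≥ 0`; for `m ≠ i, l`: `ψ(w_m) = φ(w_m) = 0` or `0`;
`ψ(w_l) = φ(w_l)`).  `φ(q) = ∑ φ(q_b) ≥ φ(q_{b_l}) + φ(q_{a'}) ≥ 2 φ(w_l) + κ φ(e)` and
`φ(q) ≤ M φ(p) = 2 M φ(w_l)`.  So `κ φ(e) ≤ 2 (M-1) φ(w_l)` for all `M > 1`, hence `φ(e) = 0`.
`∑_{m≠l} w_m + e ∉ C` (`φ = 0` there).  FMX (`e ∈ LamC`): `M ∑_{m≠l} w_m - e ∈ closure C`.  BCP (first
box, family `x_a = ∑_{β m = a, m ≠ l} w_m`, sum `∑_{m≠l} w_m ∉ C`): `e ∈ ⨆ L`.  `e` is `Ext` (EXT 2,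
second box), so `e ∈ L a` for some `a` (EXT 3), `a = β j₀` (BFA 6).  If `a ≠ β i`: `j₀ ≠ i`,
`L a = L' b` with `b ≠ a'`, so `e ∈ L' a' ∩ L' b`, `e = 0` (BFA 5), contradiction.  If `a = β i`: `e ∈ ⨆ L`
gives `L' a' ≤ ⨆ L`, hence `⨆ L' ≤ ⨆ L` (first part of `Shape`), equality by the dimension,
contradiction. -/
def CciStmt : Prop :=
  ∀ (n : ℕ) (C : Set (V n)) (Γ : Subgroup (GL (Fin n) ℝ)), CC C Γ → ∀ K : ℕ, 3 ≤ K →
    MaxCard C Γ K →
    ∀ (L : Fin K → Submodule ℝ (V n)) (w : Fin K → V n) (β : Fin K → Fin K)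
      (L' : Fin K → Submodule ℝ (V n)) (w' : Fin K → V n) (β' : Fin K → Fin K) (i a' : Fin K),
      Box C Γ L w β → Box C Γ L' w' β' → Full C (⨆ a, L a) → Full C (⨆ a, L' a) →
      Strict C L → Strict C L' →
      Module.finrank ℝ ↥(⨆ a, L' a) = Module.finrank ℝ ↥(⨆ a, L a) →
      (⨆ a, L a) ≠ (⨆ a, L' a) →
      (∀ j, j ≠ i → ∀ M : ℝ, 1 < M → ∀ᶠ N : ℕ in atTop,
        NearS C M (⨆ a, L' a)
          (pt w (fun l => if l = i then 0 else if l = j then (N : ℤ) else 1))) →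
      (∀ b, b ≠ a' → L' b ≤ ⨆ a, L a) →
      ∀ i', a' = β' i' → (∀ x ∈ L' a', ∃ c : ℝ, x = c • w' i') →
      (∀ j, j ≠ i → ∃ b, b ≠ a' ∧ w j ∈ L' b ∧ (β j ≠ β i → L (β j) = L' b)) → False

/-- **Row CCJ** (second shape is impossible).

Proof.  Choose `j ≠ i, l`; `w_j ∈ L' b_j`, `b_j ≠ a'`.  Let `p_N = w_i + 2 ∑_{m≠i,j} w_m + 2^N w_j`.
`N₀`: `NearS 2 (p_N)` for `N ≥ N₀`.  For `s ∈ ℕ`, `M_s = 1 + 1/(s+1) ≤ 2`, choose `N_s ≥ N₀` and
`q_s ∈ ⨆ L'` with `p_{N_s} ≤ q_s ≤ M_s p_{N_s}`; `q_s ∈ C`; `f_s` = component of `q_s` in `L' a'`, a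
unit (BFA 2).  Comparability: `f_s ≤ 2 f_{s'}` for all `s, s'`: if `N_s ≤ N_{s'}`,
`q_s ≤ 2 p_{N_s} ≤ 2 p_{N_{s'}} ≤ 2 q_{s'}`; if `N_s ≥ N_{s'}`,
`q_s ≤ 2 p_{N_s} = 2 p_{N_{s'}} + c w_j ≤ 2 q_{s'} + c w_j` with `w_j ∈ L' b_j`, `b_j ≠ a'`; take
components (`comp`).  So `f_s` is bounded (`normal`), on a subsequence `f_s → f'`, `f_0 ≤ 2 f'`, `f'` is
a unit of `L' a'` (UNF 1, 2).
FUN for `(w, l)`: `φ`.  `φ(f_s) ≤ φ(q_s) ≤ M_s φ(p) = 2 M_s φ(w_l)`, so `φ(f') ≤ 2 φ(w_l)`.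
`τ = max {t ≥ 0 : f' - t w_l ∈ closure C}` (closed, bounded), `y' = f' - τ w_l`: not a unit of `L' a'`
(UNF 4, maximality).  SUP (second box): `χ ≥ 0` on `closure C`, `χ y' = 0`, `χ > 0` on units of `L' a'`;
`τ χ(w_l) = χ(f') > 0`, so `χ(w_l) > 0`.  PSI (factor `a'`, `χ`): `ψ`; `ψ(p_N) ≥ 2 χ(w_l)` (`ψ(w_i) ≥ 0`,
`ψ(w_m) = 0` for `m ≠ i, l`), `ψ(p_{N_s}) ≤ ψ(q_s) = χ(f_s)`; so `χ(f') ≥ 2 χ(w_l)`, `τ ≥ 2`.
`0 ≤ φ(y') = φ(f') - τ φ(w_l) ≤ 0`, so `φ(y') = 0`.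
`y' ≠ 0`: else `f' = τ w_l`, `w_l` is a unit of `L' a'`; `w_l` is `Ext` (EXT 2, first box), so by UNF (6)
`finrank (L' a') ≤ 1`.  `y' ∈ LamC`: `y' ≤ f' ≤ M u'`, `u' = ∑_{β' i'=a'} w'_{i'}` unit, `∉ C` (`bd`,
`three`, `K ≥ 3`), `∈ Hull`, `≠ 0`, so `u' ∈ LamC` (CLO), FLM.
`∑_{m≠l} w_m + y' ∉ C` (`φ = 0`).  FMX and BCP (first box, `x_a = ∑_{β m = a, m≠l} w_m`): `y' = ∑ y_a`,
`M x_a - y_a ∈ closure C`.  `y'` is `Ext` (EXT 1, second box), so `y' ∈ L a` (EXT 3) for some `a` and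
`y' = y_a` (BFA 1), `a = β j₀` (BFA 6).
Suppose `a ≠ β i`.  If some `j₁ ≠ l` has `β j₁ = a` (`j₁ ≠ i`): `L a = L' b`, `b ≠ a'`, so `y' = 0` (BFA 5),
contradiction.  Otherwise `x_a = 0`, `-y' ∈ closure C`, contradiction.  So `a = β i`.
If `β l = β i`: the fibre is `{i, l}` (`three`), `x_a = w_i`, so `y' = c w_i` (EXT 2), `c ≠ 0`,
`w_i ∈ ⨆ L'`; all `w_m ∈ ⨆ L'`, AAS (1): `⨆ L = ⨆ L'`, contradiction.
If `β l ≠ β i`: `y', w_l` are independent (nonzero, different factors of `L`), so `y' + w_l` is a unit of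
`L' a'` (`Strict`), not in `C` (BFA 2 for `L'`: the component at `b_j` is `0`, not a unit by EXT 5).
For `z ∈ L' a'`: UNF (5): `y' + w_l + t z ∈ Face C (y' + w_l)`, FC2 (first box): it is in
`span {y', w_l}`, so `z` too: `finrank (L' a') ≤ 2`, contradiction. -/
def CcjStmt : Prop :=
  ∀ (n : ℕ) (C : Set (V n)) (Γ : Subgroup (GL (Fin n) ℝ)), CC C Γ → ∀ K : ℕ, 3 ≤ K →
    MaxCard C Γ K →
    ∀ (L : Fin K → Submodule ℝ (V n)) (w : Fin K → V n) (β : Fin K → Fin K)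
      (L' : Fin K → Submodule ℝ (V n)) (w' : Fin K → V n) (β' : Fin K → Fin K) (i a' : Fin K),
      Box C Γ L w β → Box C Γ L' w' β' → Full C (⨆ a, L a) → Full C (⨆ a, L' a) →
      Strict C L → Strict C L' →
      Module.finrank ℝ ↥(⨆ a, L' a) = Module.finrank ℝ ↥(⨆ a, L a) →
      (⨆ a, L a) ≠ (⨆ a, L' a) →
      (∀ j, j ≠ i → ∀ M : ℝ, 1 < M → ∀ᶠ N : ℕ in atTop,
        NearS C M (⨆ a, L' a)
          (pt w (fun l => if l = i then 0 else if l = j then (N : ℤ) else 1))) →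
      ∀ l, l ≠ i → w l ∈ L' a' → 3 ≤ Module.finrank ℝ (L' a') →
      (∀ j, j ≠ i → j ≠ l → ∃ b, b ≠ a' ∧ w j ∈ L' b ∧ (β j ≠ β i → L (β j) = L' b)) → False

/-- **Row DSB** (discreteness; assembly).

Proof.  Otherwise `⨆ L'_m ≠ ⨆ L` for infinitely many `m`; on a subsequence
(`Filter.extraction_of_frequently_atTop`, LSF 1) for all `m`.  DSS: a `Pair`.  `Full` from `FamS`,
`Strict` from STC, `w_j ∈ ⨆ L'` for `j ≠ i` from AAS (2) with `Pair.near`.  BBS.  SH3: `Shape`; CCI or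
CCJ. -/
def DsbStmt : Prop :=
  ∀ (n : ℕ) (C : Set (V n)) (Γ : Subgroup (GL (Fin n) ℝ)), CC C Γ → ∀ K : ℕ, 3 ≤ K →
    MaxCard C Γ K → ∀ P : Submodule ℝ (V n) → Prop, FamS C Γ P →
    ∀ (L : Fin K → Submodule ℝ (V n)) (w : Fin K → V n) (β : Fin K → Fin K)
      (L' : ℕ → Fin K → Submodule ℝ (V n)) (x : ℕ → Fin K → V n) (β' : ℕ → Fin K → Fin K),
      Box C Γ L w β → P (⨆ a, L a) → (∀ m, Box C Γ (L' m) (x m) (β' m)) →
      (∀ m, P (⨆ a, L' m a)) →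
      (∀ m, Module.finrank ℝ ↥(⨆ a, L' m a) = Module.finrank ℝ ↥(⨆ a, L a)) →
      LimS (fun m => ⨆ a, L' m a) (⨆ a, L a) →
      ∀ᶠ m in atTop, (⨆ a, L' m a) = ⨆ a, L a

/-! ## F. Maximality, the family of limits of translates, final assembly -/

/-- **Row MXE** (maximality; adapt `Pool/Agent/Helper20_PFS/Mxi.lean`, where `Star` is only used for
one vertex).

Proof.  `PosCone w ⊆ PosCone w'`.  `w'` is independent (LIN).  `w_i` is the limit of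
`w_i + δ ∑_{l≠i} w_l ∈ PosCone w'`, and `{∑ c w' : c ≥ 0}` is closed, so `w_i = ∑_j c_{ij} w'_j`,
`c_{ij} ≥ 0`.  `w'_j ∈ closure C`.  `w_i ≠ 0`, so some `c_{ij} > 0`; `c_{ij} w'_j ≤ w_i`, so by `Ext`
`c_{ij} w'_j = e w_i`, `e ≠ 0`, and `e > 0` (salient).  So `w_i = a_i w'_{σ i}`, `a_i > 0`.  `σ` is
injective (`w` independent).  If `σ` were not surjective, `∑ w_i = ∑ a_i w'_{σ i}` would be a
combination of `w'` with a zero coefficient, contradicting `bd`.  So `σ` is bijective and the open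
cones are equal. -/
def MxeStmt : Prop :=
  ∀ (n : ℕ) (C : Set (V n)), PCone C → ∀ K : ℕ, 2 ≤ K → ∀ w : Fin K → V n, PES C w →
    (∀ i, Ext C (w i)) →
    ∀ (m : ℕ) (w' : Fin m → V n), PES C w' → PosCone w ⊆ PosCone w' → PosCone w' ⊆ PosCone w

/-- `W` is a limit of `Γ`-translates of `W₀` (of the same dimension) -/
def TrLim {n : ℕ} (Γ : Subgroup (GL (Fin n) ℝ)) (W₀ W : Submodule ℝ (V n)) : Prop :=
  ∃ e : Fin (Module.finrank ℝ W₀) → V n, LinearIndependent ℝ e ∧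
    Submodule.span ℝ (Set.range e) = W ∧
    e ∈ closure {x : Fin (Module.finrank ℝ W₀) → V n | ∃ g ∈ Γ, ∀ i, x i ∈ img g W₀}

/-- **Row CLF** (the limits of translates form a closed invariant family).

Proof.  `P W := TrLim Γ W₀ W ∧ ∃ x ∈ W, x ∈ C`, `d = finrank W₀`, `S = {x | ∃ g ∈ Γ, ∀ i, x i ∈ img g W₀}`.
`full` is the hypothesis.  `act`: apply `act g` to the basis; `S` is mapped into `S` (IMG 3), closures
are mapped into closures (continuity); independence is preserved.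
`closed`: `W_m → W'`, `P (W_m)`, `finrank W_m = finrank W' = d`.  Let `e'` be a basis of `W'`
(`Fin d → V`); by the first half of `LimS` choose `e'^m_i ∈ W_m`, `e'^m_i → e'_i`.  Claim: every
`f : Fin d → V` with all `f i ∈ W_m` is in `closure S`: `f i = ∑_j A_ij e^m_j` with the basis `e^m` of
`W_m`, and the continuous map `x ↦ (∑_j A_ij x_j)_i` maps `S` into `S` (subspaces), so `closure S` into
`closure S`.  So `e'^m ∈ closure S`, and the limit `e' ∈ closure S`.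
The second statement: `P W₀` (a basis of `W₀`, `g = 1`). -/
def ClfStmt : Prop :=
  ∀ (n : ℕ) (C : Set (V n)) (Γ : Subgroup (GL (Fin n) ℝ)), CC C Γ →
    ∀ W₀ : Submodule ℝ (V n), (∃ x ∈ W₀, x ∈ C) →
      (∀ W : Submodule ℝ (V n), TrLim Γ W₀ W → (∃ x ∈ W, x ∈ C) → Full C W) →
      FamS C Γ (fun W => TrLim Γ W₀ W ∧ ∃ x ∈ W, x ∈ C) ∧ TrLim Γ W₀ W₀

/-- **Row FIB** (final assembly; `PzkStmt` is the last row of `StmtsG.lean`, stated here again as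
hypothesis).

Proof.  `P` from CLF with `W₀ = ⨆ L`, which meets `C` at `∑ v`.  `PzkStmt` gives `v'`, adapted, and `A`.
`Full`, `Strict` (STC), EXT (2): all `v'_i` are `Ext`.  `Concl`: LIN, FRZ (`Pool.Agent.PFS.H32.frz`), MXE
(a `w` as in the maximality clause is `PES` by FRZ), and `A`. -/
def FibStmt : Prop :=
  ∀ (n : ℕ) (C : Set (V n)) (Γ : Subgroup (GL (Fin n) ℝ)), CC C Γ → ∀ k : ℕ, 2 ≤ k →
    MaxCard C Γ (k + 1) →
    ∀ (L : Fin (k + 1) → Submodule ℝ (V n)) (v : Fin (k + 1) → V n)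
      (β : Fin (k + 1) → Fin (k + 1)), Box C Γ L v β →
      (∀ W : Submodule ℝ (V n), TrLim Γ (⨆ a, L a) W → (∃ x ∈ W, x ∈ C) → Full C W) →
      ∃ v' : Fin (k + 1) → V n, IsPES C Γ v' ∧ (∀ i, v' i ∈ L (β i)) ∧ Concl C Γ k v'

end Pool.Agent.PFJ
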